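import Pool.Agent.Helper672.ZFA.Fin

/-!
# The natural numbers of a model
-/

namespace Pool.Agent.Helper672.ZFA

open FirstOrder FirstOrder.Language

universe u u₁ u₂ u₃ u₄

variable {M : Type u} [L.Structure M]

/-- Inductive sets. -/
def Ind (i : M) : Prop := (∃ e, Mem e i ∧ IsSet e ∧ ∀ z, ¬ Mem z e) ∧
    ∀ n, Mem n i → ∃ s, Mem s i ∧ IsSet s ∧ ∀ z, Mem z s ↔ Mem z n ∨ z = n

variable (M) in
/-- The natural numbers of a model. -/
@[ext] structure INat where
  val : M
  prop : ∀ i : M, Ind i → Mem val i

variable [hM : IsModel M]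

omit hM in
theorem D_Ind {ι : Type} {f : (ι → M) → M} (hf : DF f) : D (fun v => Ind (f v)) := by
  refine D.and (D.ex (D.and (D.memf (DF.var _) hf.lift) (D.and (D.isSetf (DF.var _))
    (D.all (D.not (D.memf (DF.var _) (DF.var _))))))) (D.all (D.imp (D.memf (DF.var _) hf.lift)
    (D.ex (D.and (D.memf (DF.var _) hf.lift.lift) (D.and (D.isSetf (DF.var _))
    (D.all (D.iff (D.memf (DF.var _) (DF.var _)) (D.or (D.memf (DF.var _) (DF.var _))
      (D.eqf (DF.var _) (DF.var _))))))))))

noncomputable instance : ITy M (INat M) where
  code n := n.val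
  inj _ _ h := INat.ext h
  small := by
    obtain ⟨i, hi⟩ := hM.infinity
    have hS : D (fun v : Fin 1 → M => v 0 ∈ {z : M | ∀ i, Ind i → Mem z i}) :=
      D.all (D.imp (D_Ind (DF.var _)) (D.memf (DF.var _) (DF.var _)))
    have h := small_sep hS i
    refine ⟨h.elt, h.isSet, fun z => h.mem.trans ⟨?_, ?_⟩⟩
    · rintro ⟨_, h1⟩
      exact ⟨⟨z, h1⟩, rfl⟩
    · rintro ⟨a, rfl⟩
      exact ⟨a.prop i hi, a.prop⟩

omit hM in
theorem code_INat [IsModel M] (n : INat M) : code (M := M) n = n.val := rfl

namespace INat

noncomputable instance : Zero (INat M) := ⟨⟨small_empty.elt, fun i hi => by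
  obtain ⟨e, he, h1, h2⟩ := hi.1
  rwa [← small_empty.eq_elt h1 fun z => ⟨fun h => absurd h (h2 z), fun h =>
    absurd h (Set.notMem_empty z)⟩]⟩⟩

/-- The successor. -/
noncomputable def succ (n : INat M) : INat M := ⟨(small_union n.val (up n.val n.val)).elt,
  fun i hi => by
    obtain ⟨s, hs, h1, h2⟩ := hi.2 n.val (n.prop i hi)
    have h3 : s = (small_union n.val (up n.val n.val)).elt :=
      (small_union n.val (up n.val n.val)).eq_elt h1 fun z => by
        rw [h2 z]
        change _ ↔ Mem z n.val ∨ Mem z (up n.val n.val)
        rw [mem_up, or_self]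
    rwa [← h3]⟩

instance : LT (INat M) := ⟨fun m n => Mem m.val n.val⟩

omit hM in
theorem lt_def {m n : INat M} : m < n ↔ Mem m.val n.val := Iff.rfl

theorem isSet_succ (n : INat M) : IsSet (succ n).val := Small.isSet _

theorem mem_succ {n : INat M} {z : M} : Mem z (succ n).val ↔ Mem z n.val ∨ z = n.val := by
  change Mem z (small_union n.val (up n.val n.val)).elt ↔ _
  rw [Small.mem]
  change Mem z n.val ∨ Mem z (up n.val n.val) ↔ _
  rw [mem_up, or_self]

theorem not_mem_zero {z : M} : ¬ Mem z (0 : INat M).val := fun h => small_empty.mem.1 h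

theorem ind {p : INat M → Prop} (hp : Int M p) (h0 : p 0) (hs : ∀ n, p n → p (succ n)) :
    ∀ n, p n := by
  intro n
  have h := n.prop hp.small.elt ⟨⟨(0 : INat M).val, hp.small.mem.2 ⟨0, h0, rfl⟩,
    small_empty.isSet, fun z => not_mem_zero⟩, fun z hz => ?_⟩
  · obtain ⟨a, ha, h1⟩ := hp.small.mem.1 h
    exact INat.ext h1 ▸ ha
  · obtain ⟨a, ha, rfl⟩ := hp.small.mem.1 hz
    exact ⟨(succ a).val, hp.small.mem.2 ⟨succ a, hs a ha, rfl⟩, isSet_succ a, fun z => mem_succ⟩

theorem int_succ : IntF M (succ : INat M → INat M) := by
  refine IntF.of_D (S := fun v => IsSet (v 1) ∧ ∀ z, Mem z (v 1) ↔ Mem z (v 0) ∨ z = v 0) ?_ ?_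
  · exact D.and (D.isSetf (DF.var _)) (D.all (D.iff (D.memf (DF.var _) (DF.var _))
      (D.or (D.memf (DF.var _) (DF.var _)) (D.eqf (DF.var _) (DF.var _)))))
  · intro a b
    constructor
    · rintro ⟨h1, h2⟩
      exact INat.ext (hM.ext _ _ (isSet_succ a) h1 fun z => (mem_succ.trans (h2 z).symm))
    · rintro rfl
      exact ⟨isSet_succ a, fun z => mem_succ⟩

end INat

theorem IntF.succ {γ : Type*} [ITy M γ] {f : γ → INat M} (hf : IntF M f) :
    IntF M (fun c => (f c).succ) := IntF.comp INat.int_succ hf

theorem Int.ltN {γ : Type*} [ITy M γ] {f g : γ → INat M} (hf : IntF M f) (hg : IntF M g) :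
    Int M (fun c => f c < g c) := by
  have h : Int M (fun q : INat M × INat M => q.1 < q.2) :=
    Int.of_D₂ (S := fun v => Mem (v 0) (v 1)) (D.memf (DF.var _) (DF.var _)) fun _ _ => Iff.rfl
  exact Int.comp₂ (p := fun a b : INat M => a < b) h hf hg

namespace INat

theorem trans_mem (n : INat M) : ∀ x y : M, Mem x y → Mem y n.val → Mem x n.val := by
  refine ind (p := fun n : INat M => ∀ x y : M, Mem x y → Mem y n.val → Mem x n.val) ?_ ?_ ?_ n
  · refine Int.of_D (S := fun v => ∀ x y : M, Mem x y → Mem y (v 0) → Mem x (v 0)) ?_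
      fun a => Iff.rfl
    exact D.all (D.all (D.imp (D.memf (DF.var _) (DF.var _))
      (D.imp (D.memf (DF.var _) (DF.var _)) (D.memf (DF.var _) (DF.var _)))))
  · intro x y _ h
    exact absurd h not_mem_zero
  · intro n ih x y hxy hy
    rw [mem_succ] at hy ⊢
    rcases hy with hy | rfl
    · exact Or.inl (ih x y hxy hy)
    · exact Or.inl hxy

theorem lt_trans' {a b c : INat M} (h1 : a < b) (h2 : b < c) : a < c := trans_mem c _ _ h1 h2

@[simp] theorem not_lt_zero {n : INat M} : ¬ n < 0 := not_mem_zero

theorem lt_succ_iff' {m n : INat M} : m < succ n ↔ m < n ∨ m = n := by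
  rw [lt_def, mem_succ, lt_def, INat.ext_iff]

theorem lt_irrefl' (n : INat M) : ¬ n < n := by
  refine ind (p := fun n : INat M => ¬ n < n) (by (with_reducible apply Int.not; with_reducible apply Int.ltN; with_reducible exact IntF.id; with_reducible exact IntF.id)) not_lt_zero ?_ n
  intro n ih h
  have h1 : n < succ n := lt_succ_iff'.2 (Or.inr rfl)
  rcases lt_succ_iff'.1 h with h2 | h2
  · exact ih (lt_trans' h1 h2)
  · rw [h2] at h1
    exact ih h1

theorem zero_le' (n : INat M) : 0 < n ∨ 0 = n := by
  refine ind (p := fun n : INat M => 0 < n ∨ 0 = n) (by (with_reducible apply Int.or; with_reducible apply Int.ltN; with_reducible exact IntF.const _; with_reducible exact IntF.id; with_reducible apply Int.eq; with_reducible exact IntF.const _; with_reducible exact IntF.id)) (Or.inr rfl) ?_ n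
  rintro n (h | h)
  · exact Or.inl (lt_succ_iff'.2 (Or.inl h))
  · exact Or.inl (lt_succ_iff'.2 (Or.inr h))

theorem succ_le' (n m : INat M) (h : n < m) : succ n < m ∨ succ n = m := by
  revert h
  refine ind (p := fun m : INat M => n < m → succ n < m ∨ succ n = m) (by (with_reducible apply Int.imp; with_reducible apply Int.ltN; with_reducible exact IntF.const _; with_reducible exact IntF.id; with_reducible apply Int.or; with_reducible apply Int.ltN; with_reducible apply IntF.succ; with_reducible exact IntF.const _; with_reducible exact IntF.id; with_reducible apply Int.eq; with_reducible apply IntF.succ; with_reducible exact IntF.const _; with_reducible exact IntF.id)) ?_ ?_ m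
  · intro h
    exact absurd h not_lt_zero
  · intro m ih h
    rcases lt_succ_iff'.1 h with h | rfl
    · refine Or.inl (lt_succ_iff'.2 (ih h))
    · exact Or.inr rfl

theorem trich (n m : INat M) : m < n ∨ m = n ∨ n < m := by
  revert m
  refine ind (p := fun n : INat M => ∀ m, m < n ∨ m = n ∨ n < m) (by (with_reducible apply Int.all; with_reducible apply Int.or; with_reducible apply Int.ltN; with_reducible exact IntF.snd'; with_reducible exact IntF.fst'; with_reducible apply Int.or; with_reducible apply Int.eq; with_reducible exact IntF.snd'; with_reducible exact IntF.fst'; with_reducible apply Int.ltN; with_reducible exact IntF.fst'; with_reducible exact IntF.snd')) ?_ ?_ n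
  · intro m
    rcases zero_le' m with h | h
    · exact Or.inr (Or.inr h)
    · exact Or.inr (Or.inl h.symm)
  · intro n ih m
    rcases ih m with h | rfl | h
    · exact Or.inl (lt_succ_iff'.2 (Or.inl h))
    · exact Or.inl (lt_succ_iff'.2 (Or.inr rfl))
    · rcases succ_le' _ _ h with h | h
      · exact Or.inr (Or.inr h)
      · exact Or.inr (Or.inl h.symm)

noncomputable instance : LinearOrder (INat M) where
  lt a b := a < b
  le a b := a < b ∨ a = b
  le_refl a := Or.inr rfl
  le_trans a b c := by
    rintro (h | rfl) (h' | rfl)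
    · exact Or.inl (lt_trans' h h')
    · exact Or.inl h
    · exact Or.inl h'
    · exact Or.inr rfl
  lt_iff_le_not_ge a b := by
    constructor
    · intro h
      refine ⟨Or.inl h, ?_⟩
      rintro (h' | rfl)
      · exact lt_irrefl' _ (lt_trans' h h')
      · exact lt_irrefl' _ h
    · rintro ⟨h | rfl, h'⟩
      · exact h
      · exact absurd (Or.inr rfl) h'
  le_antisymm a b := by
    rintro (h | rfl) (h' | h')
    · exact absurd (lt_trans' h h') (lt_irrefl' _)
    · exact h'.symm
    · rfl
    · rfl
  le_total a b := by
    rcases trich b a with h | h | h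
    · exact Or.inl (Or.inl h)
    · exact Or.inl (Or.inr h)
    · exact Or.inr (Or.inl h)
  toDecidableLE := Classical.decRel _

theorem le_iff' {a b : INat M} : a ≤ b ↔ a < b ∨ a = b := Iff.rfl

theorem zero_le (n : INat M) : 0 ≤ n := by
  rcases zero_le' n with h | h
  · exact h.le
  · exact h.le

@[simp] theorem lt_succ_iff {m n : INat M} : m < succ n ↔ m ≤ n := lt_succ_iff'

theorem lt_succ_self (n : INat M) : n < succ n := lt_succ_iff.2 le_rfl

theorem le_succ_self (n : INat M) : n ≤ succ n := (lt_succ_self n).le

@[simp] theorem succ_le_iff {m n : INat M} : succ m ≤ n ↔ m < n :=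
  ⟨fun h => (lt_succ_self m).trans_le h, fun h => succ_le' m n h⟩

theorem succ_ne_zero (n : INat M) : succ n ≠ 0 := fun h => by
  have := lt_succ_self n
  rw [h] at this
  exact not_lt_zero this

theorem succ_inj {m n : INat M} (h : succ m = succ n) : m = n := by
  have h1 : m ≤ n := by
    rw [← lt_succ_iff, ← h]
    exact lt_succ_self m
  have h2 : n ≤ m := by
    rw [← lt_succ_iff, h]
    exact lt_succ_self n
  exact le_antisymm h1 h2

theorem eq_zero_or_succ (n : INat M) : n = 0 ∨ ∃ m, n = succ m := by
  refine ind (p := fun n : INat M => n = 0 ∨ ∃ m, n = succ m) (by (with_reducible apply Int.or; with_reducible apply Int.eq; with_reducible exact IntF.id; with_reducible exact IntF.const _; with_reducible apply Int.ex; with_reducible apply Int.eq; with_reducible exact IntF.fst'; with_reducible apply IntF.succ; with_reducible exact IntF.snd')) (Or.inl rfl) ?_ n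
  intro n _
  exact Or.inr ⟨n, rfl⟩

end INat

theorem Int.leN {γ : Type*} [ITy M γ] {f g : γ → INat M} (hf : IntF M f) (hg : IntF M g) :
    Int M (fun c => f c ≤ g c) :=
  (Int.or (Int.ltN hf hg) (Int.eq hf hg)).congr fun _ => INat.le_iff'.symm

namespace INat

/-- Least elements. -/
theorem exists_least {p : INat M → Prop} (hp : Int M p) (h : ∃ n, p n) :
    ∃ n, p n ∧ ∀ m, p m → n ≤ m := by
  by_contra h1
  push Not at h1
  have h2 : ∀ n, ∀ m, m < n → ¬ p m := by
    refine ind (by (with_reducible apply Int.all; with_reducible apply Int.imp; with_reducible apply Int.ltN; with_reducible exact IntF.snd'; with_reducible exact IntF.fst'; with_reducible apply Int.not; with_reducible ((refine Int.comp ?_ ?_); assumption); with_reducible exact IntF.snd')) ?_ ?_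
    · intro m hm
      exact absurd hm not_lt_zero
    · intro n ih m hm hpm
      obtain ⟨k, hk, hk'⟩ := h1 m hpm
      exact ih k (hk'.trans_le (lt_succ_iff.1 hm)) hk
  obtain ⟨n, hn⟩ := h
  exact h2 (succ n) n (lt_succ_self n) hn

end INat

/-! ### Recursion -/

section

variable {α : Type u₁} {β : Type u₂} {γ : Type u₃} {δ : Type u₄}
  [ITy M α] [ITy M β] [ITy M γ] [ITy M δ]

/-- Recursion. -/
noncomputable def irec (a : α) (f : INat M → α → α) (n : INat M) : α :=
  the (fun x => ∃ h : IFun M (INat M) α, h 0 = a ∧ (∀ m, m < n → h m.succ = f m (h m)) ∧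
    h n = x) a

theorem IntF.irec {a : γ → α} {f : γ → INat M → α → α} {n : γ → INat M} (ha : IntF M a)
    (hf : IntF M (fun q : (γ × INat M) × α => f q.1.1 q.1.2 q.2)) (hn : IntF M n) :
    IntF M (fun c => irec (a c) (f c) (n c)) := by
  unfold ZFA.irec
  have hf' : IntF M (fun q : (((γ × α) × IFun M (INat M) α) × INat M) =>
      f q.1.1.1 q.2 (q.1.2 q.2)) := by
    refine IntF.comp (g := fun q : (γ × INat M) × α => f q.1.1 q.1.2 q.2)
      (f := fun q : (((γ × α) × IFun M (INat M) α) × INat M) =>
        ((q.1.1.1, q.2), (q.1.2 q.2))) hf (by (with_reducible apply IntF.pair; with_reducible apply IntF.pair; with_reducible apply IntF.fst; with_reducible apply IntF.fst; with_reducible exact IntF.fst'; with_reducible exact IntF.snd'; with_reducible apply IntF.app; with_reducible apply IntF.snd; with_reducible exact IntF.fst'; with_reducible exact IntF.snd'))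
  (with_reducible apply IntF.the; with_reducible apply Int.ex; with_reducible apply Int.and; with_reducible apply Int.eq; with_reducible apply IntF.app; with_reducible exact IntF.snd'; with_reducible exact IntF.const _; with_reducible ((refine IntF.comp ?_ ?_); assumption); with_reducible apply IntF.fst; with_reducible exact IntF.fst'; with_reducible apply Int.and; with_reducible apply Int.all; with_reducible apply Int.imp; with_reducible apply Int.ltN; with_reducible exact IntF.snd'; with_reducible ((refine IntF.comp ?_ ?_); assumption); with_reducible apply IntF.fst; with_reducible apply IntF.fst; with_reducible exact IntF.fst'; with_reducible apply Int.eq; with_reducible apply IntF.app; with_reducible apply IntF.snd; with_reducible exact IntF.fst'; with_reducible apply IntF.succ; with_reducible exact IntF.snd'; with_reducible assumption; with_reducible apply Int.eq; with_reducible apply IntF.app; with_reducible exact IntF.snd'; with_reducible ((refine IntF.comp ?_ ?_); assumption); with_reducible apply IntF.fst; with_reducible exact IntF.fst'; with_reducible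 apply IntF.snd; with_reducible exact IntF.fst'; with_reducible assumption)

theorem irec_aux {a : α} {f : INat M → α → α}
    (hf : IntF M (fun q : INat M × α => f q.1 q.2)) {n : INat M} {h h' : IFun M (INat M) α}
    (h0 : h 0 = a) (h1 : ∀ m, m < n → h m.succ = f m (h m)) (h0' : h' 0 = a)
    (h1' : ∀ m, m < n → h' m.succ = f m (h' m)) : ∀ m, m ≤ n → h m = h' m := by
  refine INat.ind (by (with_reducible apply Int.imp; with_reducible apply Int.leN; with_reducible exact IntF.id; with_reducible exact IntF.const _; with_reducible apply Int.eq; with_reducible apply IntF.app; with_reducible exact IntF.const _; with_reducible exact IntF.id; with_reducible apply IntF.app; with_reducible exact IntF.const _; with_reducible exact IntF.id)) ?_ ?_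
  · intro _
    rw [h0, h0']
  · intro m ih hm
    have hm' : m < n := INat.succ_le_iff.1 hm
    rw [h1 m hm', h1' m hm', ih hm'.le]

theorem irec_exists {a : α} {f : INat M → α → α}
    (hf : IntF M (fun q : INat M × α => f q.1 q.2)) (n : INat M) :
    ∃ h : IFun M (INat M) α, h 0 = a ∧ ∀ m, m < n → h m.succ = f m (h m) := by
  refine INat.ind (p := fun n : INat M => ∃ h : IFun M (INat M) α, h 0 = a ∧
    ∀ m, m < n → h m.succ = f m (h m)) (by (with_reducible apply Int.ex; with_reducible apply Int.and; with_reducible apply Int.eq; with_reducible apply IntF.app; with_reducible exact IntF.snd'; with_reducible exact IntF.const _; with_reducible exact IntF.const _; with_reducible apply Int.all; with_reducible apply Int.imp; with_reducible apply Int.ltN; with_reducible exact IntF.snd'; with_reducible apply IntF.fst; with_reducible exact IntF.fst'; with_reducible apply Int.eq; with_reducible apply IntF.app; with_reducible apply IntF.snd; with_reducible exact IntF.fst'; with_reducible apply IntF.succ; with_reducible exact IntF.snd'; with_reducible ((refine IntF.comp₂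 ?_ ?_ ?_); assumption); with_reducible exact IntF.snd'; with_reducible apply IntF.app; with_reducible apply IntF.snd; with_reducible exact IntF.fst'; with_reducible exact IntF.snd')) ?_ ?_ n
  · exact ⟨⟨fun _ => a, IntF.const a⟩, rfl, fun m hm => absurd hm INat.not_lt_zero⟩
  · rintro n ⟨h, h0, h1⟩
    classical
    refine ⟨⟨fun k => if k = n.succ then f n (h n) else h k, by (with_reducible apply IntF.ite; with_reducible apply Int.eq; with_reducible exact IntF.id; with_reducible apply IntF.succ; with_reducible exact IntF.const _; with_reducible ((refine IntF.comp₂ ?_ ?_ ?_); assumption); with_reducible exact IntF.const _; with_reducible exact IntF.const _; with_reducible apply IntF.app; with_reducible exact IntF.const _; with_reducible exact IntF.id)⟩, ?_, ?_⟩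
    · change (if (0 : INat M) = n.succ then f n (h n) else h 0) = a
      rw [if_neg (INat.succ_ne_zero n).symm, h0]
    · intro m hm
      change (if m.succ = n.succ then f n (h n) else h m.succ) =
        f m (if m = n.succ then f n (h n) else h m)
      rw [if_neg hm.ne]
      by_cases h2 : m.succ = n.succ
      · rw [if_pos h2, INat.succ_inj h2]
      · rw [if_neg h2]
        exact h1 m (lt_of_le_of_ne (INat.lt_succ_iff.1 hm) fun h3 => h2 (h3 ▸ rfl))

theorem irec_unique {a : α} {f : INat M → α → α}
    (hf : IntF M (fun q : INat M × α => f q.1 q.2)) (n : INat M) :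
    ∃! x, ∃ h : IFun M (INat M) α, h 0 = a ∧ (∀ m, m < n → h m.succ = f m (h m)) ∧
    h n = x := by
  obtain ⟨h, h0, h1⟩ := irec_exists (a := a) hf n
  refine ⟨h n, ⟨h, h0, h1, rfl⟩, ?_⟩
  rintro x ⟨h', h0', h1', rfl⟩
  exact irec_aux hf h0' h1' h0 h1 n le_rfl

theorem irec_zero {a : α} {f : INat M → α → α}
    (hf : IntF M (fun q : INat M × α => f q.1 q.2)) : irec a f 0 = a := by
  obtain ⟨h, h0, h1⟩ := irec_exists (a := a) hf 0
  exact the_eq (irec_unique hf 0) ⟨h, h0, h1, h0⟩

theorem irec_succ {a : α} {f : INat M → α → α}
    (hf : IntF M (fun q : INat M × α => f q.1 q.2)) (n : INat M) :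
    irec a f n.succ = f n (irec a f n) := by
  obtain ⟨h, h0, h1⟩ := irec_exists (a := a) hf n.succ
  have h2 : irec a f n.succ = h n.succ := the_eq (irec_unique hf _) ⟨h, h0, h1, rfl⟩
  have h3 : irec a f n = h n := the_eq (irec_unique hf _)
    ⟨h, h0, fun m hm => h1 m (hm.trans (INat.lt_succ_self n)), rfl⟩
  rw [h2, h3, h1 n (INat.lt_succ_self n)]

end

end Pool.Agent.Helper672.ZFA
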