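import Pool.Agent.Helper672.ZFA.Power

/-!
# Unique choice and surjections
-/

namespace Pool.Agent.Helper672.ZFA

open FirstOrder FirstOrder.Language

universe u u₁ u₂ u₃ u₄

section

variable {M : Type u} [L.Structure M] [hM : IsModel M]
variable {α : Type u₁} {β : Type u₂} {γ : Type u₃} {δ : Type u₄}
  [ITy M α] [ITy M β] [ITy M γ] [ITy M δ]

theorem Int.ne {f g : γ → α} (hf : IntF M f) (hg : IntF M g) : Int M (fun c => f c ≠ g c) :=
  (Int.eq hf hg).not

theorem Int.unique {p : γ → α → Prop} (h : Int M (fun q : γ × α => p q.1 q.2)) :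
    Int M (fun c => ∃! a, p c a) := by
  have h1 : Int M (fun c => ∃ a, p c a ∧ ∀ b, p c b → b = a) := by
    refine Int.ex (Int.and h (Int.all (Int.imp ?_ (Int.eq IntF.snd' (IntF.snd IntF.fst')))))
    exact Int.comp₂ (p := p) h (IntF.fst IntF.fst') IntF.snd'
  exact h1

open Classical in
/-- The unique element with a property, with a default value. -/
noncomputable def the (p : α → Prop) (d : α) : α := if h : ∃! a, p a then h.choose else d

theorem the_spec {p : α → Prop} {d : α} (h : ∃! a, p a) : p (the p d) := by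
  unfold the
  rw [dif_pos h]
  exact h.choose_spec.1

theorem the_eq {p : α → Prop} {d a : α} (h : ∃! x, p x) (ha : p a) : the p d = a :=
  h.unique (the_spec h) ha

theorem IntF.the {p : γ → α → Prop} {d : γ → α} (h : Int M (fun q : γ × α => p q.1 q.2))
    (hd : IntF M d) : IntF M (fun c => the (p c) (d c)) := by
  refine IntF.of_rel (r := fun c a => ((∃! a, p c a) ∧ p c a) ∨ ((¬ ∃! a, p c a) ∧ d c = a))
    ?_ fun c a => ?_
  · have h0 : Int M (fun c => ∃! a, p c a) := Int.unique h
    have h1 : Int M (fun q : γ × α => ∃! a, p q.1 a) :=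
      Int.comp (p := fun c => ∃! a, p c a) h0 IntF.fst'
    exact Int.or (Int.and h1 h) (Int.and h1.not hd)
  · by_cases h1 : ∃! a, p c a
    · simp only [h1, true_and, not_true, false_and, or_false]
      exact ⟨fun h2 => the_eq h1 h2, fun h2 => h2 ▸ the_spec h1⟩
    · simp only [h1, false_and, not_false_eq_true, true_and, false_or]
      unfold ZFA.the
      rw [dif_neg h1]

/-- An internal relation that is a function gives an internal function. -/
theorem IntF.of_unique {p : γ → α → Prop} (h : Int M (fun q : γ × α => p q.1 q.2)) {f : γ → α}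
    (hf : ∀ c, p c (f c)) (hu : ∀ c a b, p c a → p c b → a = b) : IntF M f :=
  IntF.of_rel (r := p) h fun c a => ⟨fun h1 => hu c _ _ (hf c) h1, fun h1 => h1 ▸ hf c⟩

/-- A new element. -/
theorem IntF.ofSurj_aux {ε : Type*} {π : α → ε} (h : Int M (fun q : α × α => π q.1 = π q.2))
    (hπ : Function.Surjective π) (c : ε) : Int M (fun a => π a = c) := by
  obtain ⟨b, rfl⟩ := hπ c
  exact Int.comp₂ (p := fun a b => π a = π b) h IntF.id (IntF.const b)

/-- The image of an internal type under a surjection with internal kernel. -/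
@[reducible] noncomputable def ITy.ofSurj {ε : Type*} (π : α → ε) (hπ : Function.Surjective π)
    (h : Int M (fun q : α × α => π q.1 = π q.2)) : ITy M ε :=
  ITy.ofInj (fun c => sep M (fun a => π a = c)) (fun c d hcd => by
    obtain ⟨a, rfl⟩ := hπ c
    have h1 : a ∈ sep M (fun b => π b = π a) := (mem_sep (IntF.ofSurj_aux h hπ _)).2 rfl
    have h2 : a ∈ sep M (fun b => π b = d) := by
      dsimp only at hcd
      rwa [← hcd]
    exact (mem_sep (IntF.ofSurj_aux h hπ _)).1 h2) (by
    have h1 : Int M (fun t : IPow M α => ∃ a, ∀ b, (b ∈ t ↔ π b = π a)) := by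
      refine Int.ex (Int.all (Int.iff (Int.mem IntF.snd' (IntF.fst IntF.fst')) ?_))
      exact Int.comp₂ (p := fun a b => π a = π b) h IntF.snd' (IntF.snd IntF.fst')
    refine h1.congr fun t => ⟨?_, ?_⟩
    · rintro ⟨a, ha⟩
      refine ⟨π a, IPow.ext' fun b => ?_⟩
      rw [ha b, mem_sep (IntF.ofSurj_aux h hπ _)]
    · rintro ⟨c, rfl⟩
      obtain ⟨a, rfl⟩ := hπ c
      refine ⟨a, fun b => ?_⟩
      rw [mem_sep (IntF.ofSurj_aux h hπ _)])

theorem IntF.ofSurj {ε : Type*} (π : α → ε) (hπ : Function.Surjective π)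
    (h : Int M (fun q : α × α => π q.1 = π q.2)) :
    letI := ITy.ofSurj (M := M) π hπ h
    IntF M π := by
  let _ := ITy.ofSurj (M := M) π hπ h
  refine IntF.ofInj_iff (fun c => ZFA.sep M (fun a => π a = c)) _ _ ?_
  refine IntF.sep (p := fun a b => π b = π a) ?_
  exact Int.comp₂ (p := fun a b => π a = π b) h IntF.snd' IntF.fst'

/-- Functions out of such an image. -/
theorem IntF.of_surj {ε : Type*} [ITy M ε] {π : α → ε} (hπ : Function.Surjective π)
    (h : IntF M π) {f : ε → β} (hf : IntF M (fun a => f (π a))) : IntF M f := by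
  refine IntF.of_rel (r := fun c b => ∃ a, π a = c ∧ f (π a) = b) ?_ fun c b => ?_
  · refine Int.ex (Int.and (Int.eq (h.comp IntF.snd') (IntF.fst IntF.fst')) (Int.eq ?_ ?_))
    · exact IntF.comp (g := fun a => f (π a)) hf IntF.snd'
    · exact IntF.snd IntF.fst'
  · constructor
    · rintro ⟨a, rfl, h1⟩
      exact h1
    · intro h1
      obtain ⟨a, rfl⟩ := hπ c
      exact ⟨a, rfl, h1⟩

/-- Predicates on such an image. -/
theorem Int.of_surj {ε : Type*} [ITy M ε] {π : α → ε} (hπ : Function.Surjective π)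
    (h : IntF M π) {p : ε → Prop} (hp : Int M (fun a => p (π a))) : Int M p := by
  have h1 : Int M (fun c => ∃ a, π a = c ∧ p (π a)) := by
    refine Int.ex (Int.and (Int.eq (h.comp IntF.snd') IntF.fst') ?_)
    exact Int.comp (p := fun a => p (π a)) hp IntF.snd'
  refine h1.congr fun c => ?_
  constructor
  · rintro ⟨a, rfl, h1⟩
    exact h1
  · intro h1
    obtain ⟨a, rfl⟩ := hπ c
    exact ⟨a, rfl, h1⟩

end

end Pool.Agent.Helper672.ZFA
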