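import Pool.Agent.Helper672.ZFA.Model

/-!
# Pairs, products and definable functions in a model
-/

namespace Pool.Agent.Helper672.ZFA

open FirstOrder FirstOrder.Language

universe u

variable {M : Type u} [L.Structure M] {ι : Type}

theorem D.reindex {κ : Type} {p : (ι → M) → Prop} (hp : D p) (e : ι → κ) :
    D (fun w : κ → M => p (fun i => w (e i))) := Set.Definable.preimage_comp e hp

/-- Definable functions. -/
def DF (f : (ι → M) → M) : Prop :=
  D (fun w : ι ⊕ Unit → M => w (Sum.inr ()) = f (fun i => w (Sum.inl i)))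

theorem DF.reindex {κ : Type} {f : (ι → M) → M} (hf : DF f) (e : ι → κ) :
    DF (fun w : κ → M => f (fun i => w (e i))) :=
  D.reindex hf (Sum.map e id)

theorem DF.lift {f : (ι → M) → M} (hf : DF f) :
    DF (fun w : ι ⊕ Unit → M => f (fun i => w (Sum.inl i))) := hf.reindex Sum.inl

theorem DF.var (i : ι) : DF (fun v : ι → M => v i) := D.eq (T.var _) (T.var (Sum.inl i))

theorem DF.const (a : M) : DF (fun _ : ι → M => a) := D.eq (T.var _) (T.const a)

theorem D.eqf {f g : (ι → M) → M} (hf : DF f) (hg : DF g) : D (fun v => f v = g v) := by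
  have h : D (fun v : ι → M => ∃ x, x = f v ∧ x = g v) := D.ex (D.and hf hg)
  refine Eq.mp (congrArg D ?_) h
  funext v
  exact propext ⟨fun ⟨x, h1, h2⟩ => h1.symm.trans h2, fun h => ⟨f v, rfl, h⟩⟩

theorem D.memf {f g : (ι → M) → M} (hf : DF f) (hg : DF g) : D (fun v => Mem (f v) (g v)) := by
  have h : D (fun v : ι → M => ∃ x, x = f v ∧ ∃ y, y = g v ∧ Mem x y) := by
    refine D.ex (D.and hf (D.ex (D.and hg.lift ?_)))
    exact D.mem (T.var (Sum.inl (Sum.inr ()))) (T.var (Sum.inr ()))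
  refine Eq.mp (congrArg D ?_) h
  funext v
  exact propext ⟨fun ⟨x, h1, y, h2, h3⟩ => h1 ▸ h2 ▸ h3, fun h => ⟨f v, rfl, g v, rfl, h⟩⟩

theorem D.isSetf {f : (ι → M) → M} (hf : DF f) : D (fun v => IsSet (f v)) := by
  have h : D (fun v : ι → M => ∃ x, x = f v ∧ IsSet x) :=
    D.ex (D.and hf (D.isSet (T.var (Sum.inr ()))))
  refine Eq.mp (congrArg D ?_) h
  funext v
  exact propext ⟨fun ⟨x, h1, h2⟩ => h1 ▸ h2, fun h => ⟨f v, rfl, h⟩⟩

/-- `S` is given by an element of the model. -/
def Small (S : Set M) : Prop := ∃ x : M, IsSet x ∧ ∀ z, Mem z x ↔ z ∈ S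

/-- The element of the model that gives `S`. -/
noncomputable def Small.elt {S : Set M} (h : Small S) : M := h.choose

theorem Small.isSet {S : Set M} (h : Small S) : IsSet h.elt := h.choose_spec.1

theorem Small.mem {S : Set M} (h : Small S) {z : M} : Mem z h.elt ↔ z ∈ S := h.choose_spec.2 z

variable [hM : IsModel M]

theorem Small.eq_elt {S : Set M} (h : Small S) {x : M} (hx : IsSet x)
    (h1 : ∀ z, Mem z x ↔ z ∈ S) : x = h.elt :=
  hM.ext x h.elt hx h.isSet fun z => (h1 z).trans h.mem.symm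

theorem small_pair (x y : M) : Small {z | z = x ∨ z = y} := hM.pairing x y

/-- Unordered pair. -/
noncomputable def up (x y : M) : M := (small_pair x y).elt

theorem mem_up {x y z : M} : Mem z (up x y) ↔ z = x ∨ z = y := (small_pair x y).mem

theorem isSet_up (x y : M) : IsSet (up x y) := (small_pair x y).isSet

theorem eq_up {x y p : M} : p = up x y ↔ IsSet p ∧ ∀ z, Mem z p ↔ z = x ∨ z = y :=
  ⟨fun h => h ▸ ⟨isSet_up x y, fun _ => mem_up⟩, fun h => (small_pair x y).eq_elt h.1 h.2⟩

/-- Ordered pair. -/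
noncomputable def op (x y : M) : M := up (up x x) (up x y)

theorem op_inj {x y x' y' : M} (h : op x y = op x' y') : x = x' ∧ y = y' := by
  change up (up x x) (up x y) = up (up x' x') (up x' y') at h
  have h1 : up x x = up x' x' ∨ up x x = up x' y' := mem_up.1 (h ▸ mem_up.2 (Or.inl rfl))
  have h2 : up x y = up x' x' ∨ up x y = up x' y' := mem_up.1 (h ▸ mem_up.2 (Or.inr rfl))
  have h3 : up x' y' = up x x ∨ up x' y' = up x y := mem_up.1 (h.symm ▸ mem_up.2 (Or.inr rfl))
  have hx : x = x' := by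
    rcases h1 with h1 | h1
    · have : Mem x (up x' x') := h1 ▸ mem_up.2 (Or.inl rfl)
      rcases mem_up.1 this with h | h <;> exact h
    · have : Mem x' (up x x) := h1.symm ▸ mem_up.2 (Or.inl rfl)
      rcases mem_up.1 this with h | h <;> exact h.symm
  subst hx
  refine ⟨rfl, ?_⟩
  rcases h2 with h2 | h2
  · have hy : y = x := by
      have : Mem y (up x x) := h2 ▸ mem_up.2 (Or.inr rfl)
      rcases mem_up.1 this with h | h <;> exact h
    have hy' : y' = x := by
      rcases h3 with h3 | h3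
      · have : Mem y' (up x x) := h3 ▸ mem_up.2 (Or.inr rfl)
        rcases mem_up.1 this with h | h <;> exact h
      · have : Mem y' (up x y) := h3 ▸ mem_up.2 (Or.inr rfl)
        rw [hy] at this
        rcases mem_up.1 this with h | h <;> exact h
    rw [hy, hy']
  · have h4 : Mem y (up x y') := h2 ▸ mem_up.2 (Or.inr rfl)
    have h5 : Mem y' (up x y) := h2.symm ▸ mem_up.2 (Or.inr rfl)
    rcases mem_up.1 h4 with h | h
    · rcases mem_up.1 h5 with h' | h'
      · rw [h, h']
      · exact h'.symm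
    · exact h

theorem small_empty : Small (∅ : Set M) := by
  obtain ⟨_, ⟨e, _, he, h⟩, _⟩ := hM.infinity
  exact ⟨e, he, fun z => ⟨fun h1 => absurd h1 (h z), fun h1 => absurd h1 (Set.notMem_empty z)⟩⟩

theorem small_union (x y : M) : Small {z | Mem z x ∨ Mem z y} := by
  obtain ⟨a, ha, h⟩ := hM.union (up x y)
  refine ⟨a, ha, fun z => (h z).trans ⟨?_, ?_⟩⟩
  · rintro ⟨w, hw, hz⟩
    rcases mem_up.1 hw with rfl | rfl
    · exact Or.inl hz
    · exact Or.inr hz
  · rintro (hz | hz)
    · exact ⟨x, mem_up.2 (Or.inl rfl), hz⟩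
    · exact ⟨y, mem_up.2 (Or.inr rfl), hz⟩

theorem small_power (x : M) : Small {z | IsSet z ∧ ∀ w, Mem w z → Mem w x} := hM.power x

/-- Separation. -/
theorem small_sep {S : Set M} (hS : D (fun v : Fin 1 → M => v 0 ∈ S)) (x : M) :
    Small {z | Mem z x ∧ z ∈ S} := hM.separation S hS x

theorem DF.up {f g : (ι → M) → M} (hf : DF f) (hg : DF g) : DF (fun v => up (f v) (g v)) := by
  have h : D (fun w : ι ⊕ Unit → M => IsSet (w (Sum.inr ())) ∧ ∀ z, Mem z (w (Sum.inr ())) ↔
      z = f (fun i => w (Sum.inl i)) ∨ z = g (fun i => w (Sum.inl i))) := by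
    refine D.and (D.isSetf (DF.var _)) (D.all (D.iff (D.memf (DF.var _) (DF.var _)) (D.or ?_ ?_)))
    · exact D.eqf (DF.var _) hf.lift.lift
    · exact D.eqf (DF.var _) hg.lift.lift
  refine Eq.mp (congrArg D ?_) h
  funext w
  exact propext eq_up.symm

theorem DF.op {f g : (ι → M) → M} (hf : DF f) (hg : DF g) : DF (fun v => op (f v) (g v)) :=
  DF.up (DF.up hf hf) (DF.up hf hg)

theorem small_prod (A B : M) : Small {z | ∃ x y, Mem x A ∧ Mem y B ∧ z = op x y} := by
  have hS : D (fun v : Fin 1 → M => v 0 ∈ {z : M | ∃ x y, Mem x A ∧ Mem y B ∧ z = op x y}) := by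
    refine D.ex (D.ex (D.and (D.memf (DF.var _) (DF.const _)) (D.and
      (D.memf (DF.var _) (DF.const _)) (D.eqf (DF.var _) (DF.op (DF.var _) (DF.var _))))))
  have h1 := small_sep hS (small_power (small_power (small_union A B).elt).elt).elt
  refine ⟨h1.elt, h1.isSet, fun z => h1.mem.trans ⟨fun h => h.2, fun h => ⟨?_, h⟩⟩⟩
  obtain ⟨x, y, hx, hy, rfl⟩ := h
  refine (small_power _).mem.2 ⟨isSet_up _ _, fun w hw => (small_power _).mem.2 ?_⟩
  rcases mem_up.1 hw with rfl | rfl
  · refine ⟨isSet_up _ _, fun t ht => (small_union A B).mem.2 ?_⟩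
    rcases mem_up.1 ht with rfl | rfl <;> exact Or.inl hx
  · refine ⟨isSet_up _ _, fun t ht => (small_union A B).mem.2 ?_⟩
    rcases mem_up.1 ht with rfl | rfl
    · exact Or.inl hx
    · exact Or.inr hy

end Pool.Agent.Helper672.ZFA
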