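import Pool.Agent.Helper672.ZFA.Auto

/-!
# Operations on internal sets, and internal (Kuratowski) finiteness
-/

namespace Pool.Agent.Helper672.ZFA

open FirstOrder FirstOrder.Language

universe u u₁ u₂ u₃ u₄

variable {M : Type u} [L.Structure M] [hM : IsModel M]
variable {α : Type u₁} {β : Type u₂} {γ : Type u₃} {δ : Type u₄}
  [ITy M α] [ITy M β] [ITy M γ] [ITy M δ]

/-! ### Set operations -/

noncomputable instance : EmptyCollection (IPow M α) := ⟨sep M fun _ => False⟩
noncomputable instance : Insert α (IPow M α) := ⟨fun a s => sep M fun x => x = a ∨ x ∈ s⟩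
noncomputable instance : Singleton α (IPow M α) := ⟨fun a => sep M fun x => x = a⟩
noncomputable instance : Union (IPow M α) := ⟨fun s t => sep M fun x => x ∈ s ∨ x ∈ t⟩
noncomputable instance : Inter (IPow M α) := ⟨fun s t => sep M fun x => x ∈ s ∧ x ∈ t⟩
noncomputable instance : SDiff (IPow M α) := ⟨fun s t => sep M fun x => x ∈ s ∧ ¬ x ∈ t⟩
instance : HasSubset (IPow M α) := ⟨fun s t => ∀ x, x ∈ s → x ∈ t⟩

/-- The full set. -/
noncomputable def iuniv (M : Type u) [L.Structure M] [IsModel M] (α : Type u₁) [ITy M α] :
    IPow M α := sep M fun _ => True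

/-- The power set. -/
noncomputable def ipow (s : IPow M α) : IPow M (IPow M α) := sep M fun t => t ⊆ s

/-- The union of a family. -/
noncomputable def isUnion (F : IPow M (IPow M α)) : IPow M α :=
  sep M fun x => ∃ s, s ∈ F ∧ x ∈ s

/-- The image. -/
noncomputable def iimage (f : α → β) (s : IPow M α) : IPow M β :=
  sep M fun y => ∃ x, x ∈ s ∧ f x = y

/-- The product. -/
noncomputable def iprod (s : IPow M α) (t : IPow M β) : IPow M (α × β) :=
  sep M fun q => q.1 ∈ s ∧ q.2 ∈ t

@[simp] theorem mem_empty {a : α} : a ∈ (∅ : IPow M α) ↔ False := by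
  change a ∈ sep M (fun _ => False) ↔ False
  rw [mem_sep (by (with_reducible exact Int.const _))]

@[simp] theorem mem_iuniv {a : α} : a ∈ iuniv M α ↔ True := by
  change a ∈ sep M (fun _ => True) ↔ True
  rw [mem_sep (by (with_reducible exact Int.const _))]

@[simp] theorem mem_insert {a x : α} {s : IPow M α} : x ∈ insert a s ↔ x = a ∨ x ∈ s := by
  change x ∈ sep M (fun x => x = a ∨ x ∈ s) ↔ _
  rw [mem_sep (by (with_reducible apply Int.or; with_reducible apply Int.eq; with_reducible exact IntF.id; with_reducible exact IntF.const _; with_reducible apply Int.mem; with_reducible exact IntF.id; with_reducible exact IntF.const _))]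

@[simp] theorem mem_singleton {a x : α} : x ∈ ({a} : IPow M α) ↔ x = a := by
  change x ∈ sep M (fun x => x = a) ↔ _
  rw [mem_sep (by (with_reducible apply Int.eq; with_reducible exact IntF.id; with_reducible exact IntF.const _))]

@[simp] theorem mem_union {x : α} {s t : IPow M α} : x ∈ s ∪ t ↔ x ∈ s ∨ x ∈ t := by
  change x ∈ sep M (fun x => x ∈ s ∨ x ∈ t) ↔ _
  rw [mem_sep (by (with_reducible apply Int.or; with_reducible apply Int.mem; with_reducible exact IntF.id; with_reducible exact IntF.const _; with_reducible apply Int.mem; with_reducible exact IntF.id; with_reducible exact IntF.const _))]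

@[simp] theorem mem_inter {x : α} {s t : IPow M α} : x ∈ s ∩ t ↔ x ∈ s ∧ x ∈ t := by
  change x ∈ sep M (fun x => x ∈ s ∧ x ∈ t) ↔ _
  rw [mem_sep (by (with_reducible apply Int.and; with_reducible apply Int.mem; with_reducible exact IntF.id; with_reducible exact IntF.const _; with_reducible apply Int.mem; with_reducible exact IntF.id; with_reducible exact IntF.const _))]

@[simp] theorem mem_sdiff {x : α} {s t : IPow M α} : x ∈ s \ t ↔ x ∈ s ∧ ¬ x ∈ t := by
  change x ∈ sep M (fun x => x ∈ s ∧ ¬ x ∈ t) ↔ _
  rw [mem_sep (by (with_reducible apply Int.and; with_reducible apply Int.mem; with_reducible exact IntF.id; with_reducible exact IntF.const _; with_reducible apply Int.not; with_reducible apply Int.mem; with_reducible exact IntF.id; with_reducible exact IntF.const _))]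

omit hM in
theorem subset_def {s t : IPow M α} : s ⊆ t ↔ ∀ x, x ∈ s → x ∈ t := Iff.rfl

theorem Int.subset {s t : γ → IPow M α} (hs : IntF M s) (ht : IntF M t) :
    Int M (fun c => s c ⊆ t c) := by
  have h : Int M (fun c => ∀ x, x ∈ s c → x ∈ t c) := by (with_reducible apply Int.all; with_reducible apply Int.imp; with_reducible apply Int.mem; with_reducible exact IntF.snd'; with_reducible ((refine IntF.comp ?_ ?_); assumption); with_reducible exact IntF.fst'; with_reducible apply Int.mem; with_reducible exact IntF.snd'; with_reducible ((refine IntF.comp ?_ ?_); assumption); with_reducible exact IntF.fst')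
  exact h

@[simp] theorem mem_ipow {s t : IPow M α} : t ∈ ipow s ↔ t ⊆ s := by
  unfold ipow
  rw [mem_sep (by (with_reducible apply Int.subset; with_reducible exact IntF.id; with_reducible exact IntF.const _))]

@[simp] theorem mem_isUnion {F : IPow M (IPow M α)} {x : α} :
    x ∈ isUnion F ↔ ∃ s, s ∈ F ∧ x ∈ s := by
  unfold isUnion
  rw [mem_sep (by (with_reducible apply Int.ex; with_reducible apply Int.and; with_reducible apply Int.mem; with_reducible exact IntF.snd'; with_reducible exact IntF.const _; with_reducible apply Int.mem; with_reducible exact IntF.fst'; with_reducible exact IntF.snd'))]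

theorem mem_iimage {f : α → β} (hf : IntF M f) {s : IPow M α} {y : β} :
    y ∈ iimage f s ↔ ∃ x, x ∈ s ∧ f x = y := by
  unfold iimage
  rw [mem_sep (by (with_reducible apply Int.ex; with_reducible apply Int.and; with_reducible apply Int.mem; with_reducible exact IntF.snd'; with_reducible exact IntF.const _; with_reducible apply Int.eq; with_reducible ((refine IntF.comp ?_ ?_); assumption); with_reducible exact IntF.snd'; with_reducible exact IntF.fst'))]

@[simp] theorem mem_iprod {s : IPow M α} {t : IPow M β} {q : α × β} :
    q ∈ iprod s t ↔ q.1 ∈ s ∧ q.2 ∈ t := by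
  unfold iprod
  rw [mem_sep (by (with_reducible apply Int.and; with_reducible apply Int.mem; with_reducible exact IntF.fst'; with_reducible exact IntF.const _; with_reducible apply Int.mem; with_reducible exact IntF.snd'; with_reducible exact IntF.const _))]

theorem IntF.insert {f : γ → α} {s : γ → IPow M α} (hf : IntF M f) (hs : IntF M s) :
    IntF M (fun c => insert (f c) (s c)) := by
  have h : IntF M (fun c => ZFA.sep M fun x => x = f c ∨ x ∈ s c) := by (with_reducible apply IntF.sep; with_reducible apply Int.or; with_reducible apply Int.eq; with_reducible exact IntF.snd'; with_reducible ((refine IntF.comp ?_ ?_); assumption); with_reducible exact IntF.fst'; with_reducible apply Int.mem; with_reducible exact IntF.snd'; with_reducible ((refine IntF.comp ?_ ?_); assumption); with_reducible exact IntF.fst')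
  exact h

theorem IntF.singleton {f : γ → α} (hf : IntF M f) :
    IntF M (fun c => ({f c} : IPow M α)) := by
  have h : IntF M (fun c => ZFA.sep M fun x => x = f c) := by (with_reducible apply IntF.sep; with_reducible apply Int.eq; with_reducible exact IntF.snd'; with_reducible ((refine IntF.comp ?_ ?_); assumption); with_reducible exact IntF.fst')
  exact h

theorem IntF.union {s t : γ → IPow M α} (hs : IntF M s) (ht : IntF M t) :
    IntF M (fun c => s c ∪ t c) := by
  have h : IntF M (fun c => ZFA.sep M fun x => x ∈ s c ∨ x ∈ t c) := by (with_reducible apply IntF.sep; with_reducible apply Int.or; with_reducible apply Int.mem; with_reducible exact IntF.snd'; with_reducible ((refine IntF.comp ?_ ?_); assumption); with_reducible exact IntF.fst'; with_reducible apply Int.mem; with_reducible exact IntF.snd'; with_reducible ((refine IntF.comp ?_ ?_); assumption); with_reducible exact IntF.fst')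
  exact h

theorem IntF.inter {s t : γ → IPow M α} (hs : IntF M s) (ht : IntF M t) :
    IntF M (fun c => s c ∩ t c) := by
  have h : IntF M (fun c => ZFA.sep M fun x => x ∈ s c ∧ x ∈ t c) := by (with_reducible apply IntF.sep; with_reducible apply Int.and; with_reducible apply Int.mem; with_reducible exact IntF.snd'; with_reducible ((refine IntF.comp ?_ ?_); assumption); with_reducible exact IntF.fst'; with_reducible apply Int.mem; with_reducible exact IntF.snd'; with_reducible ((refine IntF.comp ?_ ?_); assumption); with_reducible exact IntF.fst')
  exact h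

theorem IntF.sdiff {s t : γ → IPow M α} (hs : IntF M s) (ht : IntF M t) :
    IntF M (fun c => s c \ t c) := by
  have h : IntF M (fun c => ZFA.sep M fun x => x ∈ s c ∧ ¬ x ∈ t c) := by (with_reducible apply IntF.sep; with_reducible apply Int.and; with_reducible apply Int.mem; with_reducible exact IntF.snd'; with_reducible ((refine IntF.comp ?_ ?_); assumption); with_reducible exact IntF.fst'; with_reducible apply Int.not; with_reducible apply Int.mem; with_reducible exact IntF.snd'; with_reducible ((refine IntF.comp ?_ ?_); assumption); with_reducible exact IntF.fst')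
  exact h

theorem IntF.ipow {s : γ → IPow M α} (hs : IntF M s) : IntF M (fun c => ipow (s c)) := by
  unfold ZFA.ipow
  (with_reducible apply IntF.sep; with_reducible apply Int.subset; with_reducible exact IntF.snd'; with_reducible ((refine IntF.comp ?_ ?_); assumption); with_reducible exact IntF.fst')

theorem IntF.isUnion {s : γ → IPow M (IPow M α)} (hs : IntF M s) :
    IntF M (fun c => isUnion (s c)) := by
  unfold ZFA.isUnion
  (with_reducible apply IntF.sep; with_reducible apply Int.ex; with_reducible apply Int.and; with_reducible apply Int.mem; with_reducible exact IntF.snd'; with_reducible ((refine IntF.comp ?_ ?_); assumption); with_reducible apply IntF.fst; with_reducible exact IntF.fst'; with_reducible apply Int.mem; with_reducible apply IntF.snd; with_reducible exact IntF.fst'; with_reducible exact IntF.snd')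

theorem IntF.iimage {f : γ → α → β} (hf : IntF M (fun q : γ × α => f q.1 q.2))
    {s : γ → IPow M α} (hs : IntF M s) : IntF M (fun c => iimage (f c) (s c)) := by
  unfold ZFA.iimage
  (with_reducible apply IntF.sep; with_reducible apply Int.ex; with_reducible apply Int.and; with_reducible apply Int.mem; with_reducible exact IntF.snd'; with_reducible ((refine IntF.comp ?_ ?_); assumption); with_reducible apply IntF.fst; with_reducible exact IntF.fst'; with_reducible apply Int.eq; with_reducible ((refine IntF.comp₂ ?_ ?_ ?_); assumption); with_reducible apply IntF.fst; with_reducible exact IntF.fst'; with_reducible exact IntF.snd'; with_reducible apply IntF.snd; with_reducible exact IntF.fst')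

theorem IntF.iprod {s : γ → IPow M α} {t : γ → IPow M β} (hs : IntF M s) (ht : IntF M t) :
    IntF M (fun c => iprod (s c) (t c)) := by
  unfold ZFA.iprod
  (with_reducible apply IntF.sep; with_reducible apply Int.and; with_reducible apply Int.mem; with_reducible apply IntF.fst; with_reducible exact IntF.snd'; with_reducible ((refine IntF.comp ?_ ?_); assumption); with_reducible exact IntF.fst'; with_reducible apply Int.mem; with_reducible apply IntF.snd; with_reducible exact IntF.snd'; with_reducible ((refine IntF.comp ?_ ?_); assumption); with_reducible exact IntF.fst')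

/-! ### Finiteness -/

/-- Internally (Kuratowski) finite sets. -/
def IFin (s : IPow M α) : Prop :=
  ∀ F : IPow M (IPow M α), (∅ ∈ F ∧ ∀ t a, t ∈ F → insert a t ∈ F) → s ∈ F

theorem Int.fin {s : γ → IPow M α} (hs : IntF M s) : Int M (fun c => IFin (s c)) := by
  unfold IFin
  (with_reducible apply Int.all; with_reducible apply Int.imp; with_reducible apply Int.and; with_reducible apply Int.mem; with_reducible exact IntF.const _; with_reducible exact IntF.snd'; with_reducible apply Int.all; with_reducible apply Int.all; with_reducible apply Int.imp; with_reducible apply Int.mem; with_reducible apply IntF.snd; with_reducible exact IntF.fst'; with_reducible apply IntF.snd; with_reducible apply IntF.fst; with_reducible exact IntF.fst'; with_reducible apply Int.mem; with_reducible apply IntF.insert; with_reducible exact IntF.snd'; with_reducible apply IntF.snd; with_reducible exact IntF.fst'; with_reducible apply IntF.snd; with_reducible apply IntF.fst; with_reducible exact IntF.fst'; with_reducible apply Int.mem; with_reducible ((refine IntF.comp ?_ ?_); assumption); with_reducible exact IntF.fst';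 with_reducible exact IntF.snd')

theorem IFin.empty : IFin (∅ : IPow M α) := fun _ h => h.1

theorem IFin.insert {s : IPow M α} (hs : IFin s) (a : α) : IFin (insert a s) :=
  fun F h => h.2 _ _ (hs F h)

/-- Induction. -/
theorem IFin.ind {p : IPow M α → Prop} (hp : Int M p) (h0 : p ∅)
    (h1 : ∀ s a, IFin s → a ∉ s → p s → p (Insert.insert a s)) : ∀ s, IFin s → p s := by
  intro s hs
  have h := hs (sep M fun t => IFin t ∧ p t) ?_
  · rw [mem_sep (by (with_reducible apply Int.and; with_reducible apply Int.fin; with_reducible exact IntF.id; with_reducible assumption))] at h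
    exact h.2
  · rw [mem_sep (by (with_reducible apply Int.and; with_reducible apply Int.fin; with_reducible exact IntF.id; with_reducible assumption))]
    refine ⟨⟨IFin.empty, h0⟩, fun t a ht => ?_⟩
    rw [mem_sep (by (with_reducible apply Int.and; with_reducible apply Int.fin; with_reducible exact IntF.id; with_reducible assumption))] at ht ⊢
    refine ⟨ht.1.insert a, ?_⟩
    by_cases ha : a ∈ t
    · have : (Insert.insert a t : IPow M α) = t := IPow.ext' fun x => by
        rw [mem_insert]
        exact ⟨fun h => h.elim (fun h => h ▸ ha) id, Or.inr⟩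
      rw [this]
      exact ht.2
    · exact h1 t a ht.1 ha ht.2

theorem IFin.subset {s t : IPow M α} (hs : IFin s) (h : t ⊆ s) : IFin t := by
  suffices h' : ∀ t, t ⊆ s → IFin t from h' t h
  refine IFin.ind (p := fun s => ∀ t, t ⊆ s → IFin t) (by (with_reducible apply Int.all; with_reducible apply Int.imp; with_reducible apply Int.subset; with_reducible exact IntF.snd'; with_reducible exact IntF.fst'; with_reducible apply Int.fin; with_reducible exact IntF.snd')) ?_ ?_ s hs
  · intro t ht
    have : t = ∅ := IPow.ext' fun x => ⟨fun h => ht x h, fun h => absurd h (by simp)⟩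
    rw [this]
    exact IFin.empty
  · intro s a hs ha ih t ht
    by_cases h : a ∈ t
    · have h1 : t = Insert.insert a (t \ {a}) := IPow.ext' fun x => by
        by_cases hx : x = a <;> simp [hx, h]
      rw [h1]
      refine IFin.insert (ih _ fun x hx => ?_) a
      rw [mem_sdiff, mem_singleton] at hx
      exact (mem_insert.1 (ht x hx.1)).resolve_left hx.2
    · exact ih _ fun x hx => (mem_insert.1 (ht x hx)).resolve_left fun h1 => h (h1 ▸ hx)

theorem IFin.singleton (a : α) : IFin ({a} : IPow M α) := by
  have : ({a} : IPow M α) = Insert.insert a ∅ := IPow.ext' fun x => by simp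
  rw [this]
  exact IFin.empty.insert a

theorem IFin.union {s t : IPow M α} (hs : IFin s) (ht : IFin t) : IFin (s ∪ t) := by
  refine IFin.ind (p := fun s => IFin (s ∪ t)) (by (with_reducible apply Int.fin; with_reducible apply IntF.union; with_reducible exact IntF.id; with_reducible exact IntF.const _)) ?_ ?_ s hs
  · have : (∅ : IPow M α) ∪ t = t := IPow.ext' fun x => by simp
    rw [this]
    exact ht
  · intro s a _ _ ih
    have : (Insert.insert a s : IPow M α) ∪ t = Insert.insert a (s ∪ t) :=
      IPow.ext' fun x => by simp [or_assoc]
    rw [this]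
    exact ih.insert a

theorem IFin.isUnion {F : IPow M (IPow M α)} (hF : IFin F) (h : ∀ s, s ∈ F → IFin s) :
    IFin (isUnion F) := by
  revert h
  refine IFin.ind (p := fun F => (∀ s, s ∈ F → IFin s) → IFin (ZFA.isUnion F))
    (by (with_reducible apply Int.imp; with_reducible apply Int.all; with_reducible apply Int.imp; with_reducible apply Int.mem; with_reducible exact IntF.snd'; with_reducible exact IntF.fst'; with_reducible apply Int.fin; with_reducible exact IntF.snd'; with_reducible apply Int.fin; with_reducible apply IntF.isUnion; with_reducible exact IntF.id)) ?_ ?_ F hF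
  · intro _
    refine IFin.empty.subset fun x hx => ?_
    simp at hx
  · intro F s _ _ ih h
    refine ((h s (mem_insert.2 (Or.inl rfl))).union
      (ih fun t ht => h t (mem_insert.2 (Or.inr ht)))).subset fun x hx => ?_
    rw [mem_isUnion] at hx
    obtain ⟨t, ht, hx⟩ := hx
    rw [mem_union, mem_isUnion]
    rcases mem_insert.1 ht with rfl | ht
    · exact Or.inl hx
    · exact Or.inr ⟨t, ht, hx⟩

theorem IFin.image {s : IPow M α} (hs : IFin s) {f : α → β} (hf : IntF M f) :
    IFin (iimage f s) := by
  refine IFin.ind (p := fun s => IFin (iimage f s)) (by (with_reducible apply Int.fin; with_reducible apply IntF.iimage; with_reducible ((refine IntF.comp ?_ ?_); assumption); with_reducible exact IntF.snd'; with_reducible exact IntF.id)) ?_ ?_ s hs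
  · refine IFin.empty.subset fun x hx => ?_
    rw [mem_iimage hf] at hx
    obtain ⟨y, hy, _⟩ := hx
    exact absurd hy (by simp)
  · intro s a _ _ ih
    refine (ih.insert (f a)).subset fun x hx => ?_
    rw [mem_iimage hf] at hx
    obtain ⟨y, hy, rfl⟩ := hx
    rw [mem_insert, mem_iimage hf]
    rcases mem_insert.1 hy with rfl | hy
    · exact Or.inl rfl
    · exact Or.inr ⟨y, hy, rfl⟩

theorem IFin.prod {s : IPow M α} {t : IPow M β} (hs : IFin s) (ht : IFin t) :
    IFin (iprod s t) := by
  refine IFin.ind (p := fun s => IFin (iprod s t)) (by (with_reducible apply Int.fin; with_reducible apply IntF.iprod; with_reducible exact IntF.id; with_reducible exact IntF.const _)) ?_ ?_ s hs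
  · refine IFin.empty.subset fun x hx => ?_
    rw [mem_iprod] at hx
    exact absurd hx.1 (by simp)
  · intro s a _ _ ih
    have hf : IntF M (fun b : β => (a, b)) := by (with_reducible apply IntF.pair; with_reducible exact IntF.const _; with_reducible exact IntF.id)
    refine ((ht.image hf).union ih).subset fun q hq => ?_
    rw [mem_iprod] at hq
    rw [mem_union, mem_iimage hf, mem_iprod]
    rcases mem_insert.1 hq.1 with h | h
    · exact Or.inl ⟨q.2, hq.2, Prod.ext h.symm rfl⟩
    · exact Or.inr ⟨h, hq.2⟩

theorem IFin.pow {s : IPow M α} (hs : IFin s) : IFin (ipow s) := by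
  refine IFin.ind (p := fun s => IFin (ipow s)) (by (with_reducible apply Int.fin; with_reducible apply IntF.ipow; with_reducible exact IntF.id)) ?_ ?_ s hs
  · refine (IFin.singleton ∅).subset fun t ht => ?_
    rw [mem_ipow] at ht
    rw [mem_singleton]
    exact IPow.ext' fun x => ⟨fun h => ht x h, fun h => absurd h (by simp)⟩
  · intro s a _ _ ih
    have hf : IntF M (fun t : IPow M α => Insert.insert a t) := by (with_reducible apply IntF.insert; with_reducible exact IntF.const _; with_reducible exact IntF.id)
    refine (ih.union (ih.image hf)).subset fun t ht => ?_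
    rw [mem_ipow] at ht
    rw [mem_union, mem_iimage hf, mem_ipow]
    by_cases h : a ∈ t
    · refine Or.inr ⟨t \ {a}, ?_, ?_⟩
      · rw [mem_ipow]
        intro x hx
        rw [mem_sdiff, mem_singleton] at hx
        exact (mem_insert.1 (ht x hx.1)).resolve_left hx.2
      · refine IPow.ext' fun x => ?_
        by_cases hx : x = a <;> simp [hx, h]
    · exact Or.inl fun x hx => (mem_insert.1 (ht x hx)).resolve_left fun h1 => h (h1 ▸ hx)

/-- Minimal elements. -/
theorem IFin.exists_min {lt : α → α → Prop} (hlt : Int M (fun q : α × α => lt q.1 q.2))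
    (irr : ∀ a, ¬ lt a a) (tr : ∀ a b c, lt a b → lt b c → lt a c) {s : IPow M α} (hs : IFin s)
    (hne : ∃ a, a ∈ s) : ∃ a, a ∈ s ∧ ∀ b, b ∈ s → ¬ lt b a := by
  revert hne
  refine IFin.ind (p := fun s => (∃ a, a ∈ s) → ∃ a, a ∈ s ∧ ∀ b, b ∈ s → ¬ lt b a)
    (by (with_reducible apply Int.imp; with_reducible apply Int.ex; with_reducible apply Int.mem; with_reducible exact IntF.snd'; with_reducible exact IntF.fst'; with_reducible apply Int.ex; with_reducible apply Int.and; with_reducible apply Int.mem; with_reducible exact IntF.snd'; with_reducible exact IntF.fst'; with_reducible apply Int.all; with_reducible apply Int.imp; with_reducible apply Int.mem; with_reducible exact IntF.snd'; with_reducible apply IntF.fst; with_reducible exact IntF.fst'; with_reducible apply Int.not; with_reducible ((refine Int.comp₂ ?_ ?_ ?_); assumption); with_reducible exact IntF.snd'; with_reducible apply IntF.snd; with_reducible exact IntF.fst')) ?_ ?_ s hs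
  · rintro ⟨a, ha⟩
    simp at ha
  · intro s a _ _ ih _
    by_cases h : ∃ a, a ∈ s
    · obtain ⟨m, hm, h1⟩ := ih h
      by_cases h2 : lt a m
      · refine ⟨a, by simp, fun b hb h3 => ?_⟩
        rcases mem_insert.1 hb with rfl | hb
        · exact irr _ h3
        · exact h1 b hb (tr _ _ _ h3 h2)
      · refine ⟨m, mem_insert.2 (Or.inr hm), fun b hb h3 => ?_⟩
        rcases mem_insert.1 hb with rfl | hb
        · exact h2 h3
        · exact h1 b hb h3
    · refine ⟨a, by simp, fun b hb h3 => ?_⟩
      rcases mem_insert.1 hb with rfl | hb
      · exact irr _ h3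
      · exact h ⟨b, hb⟩

/-- Directed families. -/
theorem IFin.exists_bound {r : α → β → Prop} (hr : Int M (fun q : α × β => r q.1 q.2))
    (hdir : ∀ b c, ∃ d, ∀ a, (r a b ∨ r a c) → r a d) (hne : Nonempty β) {s : IPow M α}
    (hs : IFin s) (h : ∀ a, a ∈ s → ∃ b, r a b) : ∃ b, ∀ a, a ∈ s → r a b := by
  revert h
  refine IFin.ind (p := fun s => (∀ a, a ∈ s → ∃ b, r a b) → ∃ b, ∀ a, a ∈ s → r a b)
    (by (with_reducible apply Int.imp; with_reducible apply Int.all; with_reducible apply Int.imp; with_reducible apply Int.mem; with_reducible exact IntF.snd'; with_reducible exact IntF.fst'; with_reducible apply Int.ex; with_reducible ((refine Int.comp₂ ?_ ?_ ?_); assumption); with_reducible apply IntF.snd; with_reducible exact IntF.fst'; with_reducible exact IntF.snd'; with_reducible apply Int.ex; with_reducible apply Int.all; with_reducible apply Int.imp; with_reducible apply Int.mem; with_reducible exact IntF.snd'; with_reducible apply IntF.fst; with_reducible exact IntF.fst'; with_reducible ((refine Int.comp₂ ?_ ?_ ?_); assumption); with_reducible exact IntF.snd'; with_reducible apply IntF.snd;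 with_reducible exact IntF.fst')) ?_ ?_ s hs
  · intro _
    obtain ⟨b⟩ := hne
    exact ⟨b, fun a ha => absurd ha (by simp)⟩
  · intro s a _ _ ih h
    obtain ⟨b, hb⟩ := ih fun a ha => h a (mem_insert.2 (Or.inr ha))
    obtain ⟨c, hc⟩ := h a (by simp)
    obtain ⟨d, hd⟩ := hdir b c
    refine ⟨d, fun x hx => ?_⟩
    rcases mem_insert.1 hx with rfl | hx
    · exact hd _ (Or.inr hc)
    · exact hd _ (Or.inl (hb _ hx))

end Pool.Agent.Helper672.ZFA
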