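import Pool.Agent.Helper672.ZFA.Statement

/-!
# Models of set theory with atoms
-/

namespace Pool.Agent.Helper672.ZFA

open FirstOrder FirstOrder.Language

universe u

variable {M : Type u} [L.Structure M]

variable (M) in
/-- A slightly more convenient form of the axioms. -/
class IsModel : Prop where
  /-- atoms have no elements -/
  atoms : ∀ x y : M, Mem x y → IsSet y
  ext : ∀ x y : M, IsSet x → IsSet y → (∀ z, Mem z x ↔ Mem z y) → x = y
  pairing : ∀ x y : M, ∃ p, IsSet p ∧ ∀ z, Mem z p ↔ z = x ∨ z = y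
  union : ∀ x : M, ∃ a, IsSet a ∧ ∀ z, Mem z a ↔ ∃ y, Mem y x ∧ Mem z y
  power : ∀ x : M, ∃ p, IsSet p ∧ ∀ z, Mem z p ↔ IsSet z ∧ ∀ w, Mem w z → Mem w x
  infinity : ∃ i : M, (∃ e, Mem e i ∧ IsSet e ∧ ∀ z, ¬ Mem z e) ∧
    ∀ n, Mem n i → ∃ s, Mem s i ∧ IsSet s ∧ ∀ z, Mem z s ↔ Mem z n ∨ z = n
  separation : ∀ S : Set M, (Set.univ : Set M).Definable₁ L S →
    ∀ x : M, ∃ y, IsSet y ∧ ∀ z, Mem z y ↔ Mem z x ∧ z ∈ S

theorem ZermeloAtoms.isModel [h : ZermeloAtoms M] : IsModel M where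
  atoms := h.atoms
  ext := h.ext
  pairing := h.pairing
  union := fun x => by
    by_cases hx : IsSet x
    · exact h.union x hx
    · obtain ⟨_, ⟨e, _, he, h1⟩, _⟩ := h.infinity
      exact ⟨e, he, fun z => ⟨fun h2 => absurd h2 (h1 z), fun ⟨y, h2, _⟩ =>
        absurd (h.atoms _ _ h2) hx⟩⟩
  power := fun x => by
    by_cases hx : IsSet x
    · exact h.power x hx
    · obtain ⟨_, ⟨e, _, he, h1⟩, _⟩ := h.infinity
      obtain ⟨p, hp, h2⟩ := h.pairing e e
      refine ⟨p, hp, fun z => (h2 z).trans ⟨?_, ?_⟩⟩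
      · rintro (rfl | rfl) <;> exact ⟨he, fun w hw => absurd hw (h1 w)⟩
      · rintro ⟨h3, h4⟩
        exact Or.inl (h.ext z e h3 he fun w => ⟨fun hw => absurd (h.atoms _ _ (h4 w hw)) hx,
          fun hw => absurd hw (h1 w)⟩)
  infinity := h.infinity
  separation := fun S hS x => by
    by_cases hx : IsSet x
    · exact h.separation S hS x hx
    · obtain ⟨_, ⟨e, _, he, h1⟩, _⟩ := h.infinity
      exact ⟨e, he, fun z => ⟨fun h2 => absurd h2 (h1 z), fun h2 =>
        absurd (h.atoms _ _ h2.1) hx⟩⟩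

/-! ### Definability -/

/-- Definability with parameters. -/
def D {ι : Type} (p : (ι → M) → Prop) : Prop := (Set.univ : Set M).Definable L {v | p v}

/-- Terms: variables and parameters. -/
def T {ι : Type} (t : (ι → M) → M) : Prop :=
  ∃ τ : L[[(Set.univ : Set M)]].Term ι, ∀ v, τ.realize v = t v

section

variable {ι : Type}

theorem T.var (i : ι) : T (fun v : ι → M => v i) := ⟨Term.var i, fun _ => rfl⟩

theorem T.const (a : M) : T (fun _ : ι → M => a) :=
  ⟨(L.con (⟨a, Set.mem_univ a⟩ : (Set.univ : Set M))).term, fun v => by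
    simp [Term.realize_constants]⟩

theorem D.not {p : (ι → M) → Prop} (hp : D p) : D (fun v => ¬ p v) := by
  have h := Set.Definable.compl hp
  exact h

theorem D.and {p q : (ι → M) → Prop} (hp : D p) (hq : D q) : D (fun v => p v ∧ q v) := by
  have h := Set.Definable.inter hp hq
  exact h

theorem D.or {p q : (ι → M) → Prop} (hp : D p) (hq : D q) : D (fun v => p v ∨ q v) := by
  have h := Set.Definable.union hp hq
  exact h

theorem D.imp {p q : (ι → M) → Prop} (hp : D p) (hq : D q) : D (fun v => p v → q v) := by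
  have h := (hp.not).or hq
  refine Eq.mp (congrArg D ?_) h
  funext v
  exact propext imp_iff_not_or.symm

theorem D.iff {p q : (ι → M) → Prop} (hp : D p) (hq : D q) : D (fun v => (p v ↔ q v)) := by
  have h := (hp.imp hq).and (hq.imp hp)
  refine Eq.mp (congrArg D ?_) h
  funext v
  exact propext iff_iff_implies_and_implies.symm

theorem D.ex {p : (ι → M) → M → Prop}
    (h : D (fun w : ι ⊕ Unit → M => p (fun i => w (Sum.inl i)) (w (Sum.inr ())))) :
    D (fun v => ∃ x, p v x) := by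
  have h1 := Set.Definable.exists_of_finite (β := Unit) h
  refine Eq.mp (congrArg D ?_) h1
  funext v
  refine propext ⟨fun ⟨a, ha⟩ => ⟨a (), ha⟩, fun ⟨x, hx⟩ => ⟨fun _ => x, hx⟩⟩

theorem D.all {p : (ι → M) → M → Prop}
    (h : D (fun w : ι ⊕ Unit → M => p (fun i => w (Sum.inl i)) (w (Sum.inr ())))) :
    D (fun v => ∀ x, p v x) := by
  have h1 := Set.Definable.forall_of_finite (β := Unit) h
  refine Eq.mp (congrArg D ?_) h1
  funext v
  refine propext ⟨fun h2 x => h2 fun _ => x, fun h2 a => h2 (a ())⟩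

theorem D.mem {s t : (ι → M) → M} (hs : T s) (ht : T t) : D (fun v => Mem (s v) (t v)) := by
  obtain ⟨σ, hσ⟩ := hs
  obtain ⟨τ, hτ⟩ := ht
  refine ⟨Relations.formula₂ (((L.lhomWithConstants (Set.univ : Set M)).onRelation
    (Sym.mem : L.Relations 2))) σ τ, ?_⟩
  ext v
  simp only [Set.mem_ofPred_eq, Formula.realize_rel₂, hσ, hτ]
  rfl

theorem D.isSet {s : (ι → M) → M} (hs : T s) : D (fun v => IsSet (s v)) := by
  obtain ⟨σ, hσ⟩ := hs
  refine ⟨Relations.formula₁ (((L.lhomWithConstants (Set.univ : Set M)).onRelation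
    (Sym.isSet : L.Relations 1))) σ, ?_⟩
  ext v
  simp only [Set.mem_ofPred_eq, Formula.realize_rel₁, hσ]
  rfl

theorem D.eq {s t : (ι → M) → M} (hs : T s) (ht : T t) : D (fun v => s v = t v) := by
  obtain ⟨σ, hσ⟩ := hs
  obtain ⟨τ, hτ⟩ := ht
  refine ⟨σ.equal τ, ?_⟩
  ext v
  simp only [Set.mem_ofPred_eq, Formula.realize_equal, hσ, hτ]

end

end Pool.Agent.Helper672.ZFA
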