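import Pool.Agent.Helper672.ZFA.Fin

/-!
# Strict orders, lexicographic orders, and the Bourbaki-Witt argument
-/

namespace Pool.Agent.Helper672.ZFA

open FirstOrder FirstOrder.Language

universe u u₁ u₂ u₃ u₄

/-- Strict orders that are linear on `A`. -/
structure SLO {α : Type u₁} (A : α → Prop) (lt : α → α → Prop) : Prop where
  irr : ∀ a, ¬ lt a a
  tr : ∀ a b c, lt a b → lt b c → lt a c
  tri : ∀ a b, A a → A b → lt a b ∨ a = b ∨ lt b a

/-- Lexicographic product. -/
def prodLT {α : Type u₁} {β : Type u₂} (lt : α → α → Prop) (lt' : β → β → Prop) (p q : α × β) :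
    Prop := lt p.1 q.1 ∨ (p.1 = q.1 ∧ lt' p.2 q.2)

theorem SLO.prod {α : Type u₁} {β : Type u₂} {A : α → Prop} {B : β → Prop}
    {lt : α → α → Prop} {lt' : β → β → Prop} (h : SLO A lt) (h' : SLO B lt') :
    SLO (fun p : α × β => A p.1 ∧ B p.2) (prodLT lt lt') where
  irr := by
    rintro p (h1 | ⟨_, h1⟩)
    · exact h.irr _ h1
    · exact h'.irr _ h1
  tr := by
    rintro ⟨a, b⟩ ⟨c, d⟩ ⟨e, f⟩ (h1 | ⟨h1, h1'⟩) (h2 | ⟨h2, h2'⟩)
    · exact Or.inl (h.tr _ _ _ h1 h2)
    · dsimp only at h1 h2
      subst h2
      exact Or.inl h1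
    · dsimp only at h1 h2
      subst h1
      exact Or.inl h2
    · dsimp only at h1 h2
      subst h1 h2
      exact Or.inr ⟨rfl, h'.tr _ _ _ h1' h2'⟩
  tri := by
    rintro ⟨a, b⟩ ⟨c, d⟩ ⟨ha, hb⟩ ⟨hc, hd⟩
    rcases h.tri a c ha hc with h1 | h1 | h1
    · exact Or.inl (Or.inl h1)
    · subst h1
      rcases h'.tri b d hb hd with h2 | h2 | h2
      · exact Or.inl (Or.inr ⟨rfl, h2⟩)
      · subst h2
        exact Or.inr (Or.inl rfl)
      · exact Or.inr (Or.inr (Or.inr ⟨rfl, h2⟩))
    · exact Or.inr (Or.inr (Or.inl h1))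

/-- Lexicographic order on functions. -/
def lexLT {α : Type u₁} {β : Type u₂} (A : α → Prop) (lt : α → α → Prop) (lt' : β → β → Prop)
    (f g : α → β) : Prop := ∃ a, A a ∧ lt' (f a) (g a) ∧ ∀ b, A b → lt b a → f b = g b

section lex

variable {α : Type u₁} {β : Type u₂} {A : α → Prop} {lt : α → α → Prop} {lt' : β → β → Prop}

theorem lex_irr {B : β → Prop} (h' : SLO B lt') (f : α → β) : ¬ lexLT A lt lt' f f := by
  rintro ⟨a, _, h, _⟩
  exact h'.irr _ h

theorem lex_tr {B : β → Prop} (h : SLO A lt) (h' : SLO B lt') (f g k : α → β)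
    (h1 : lexLT A lt lt' f g) (h2 : lexLT A lt lt' g k) : lexLT A lt lt' f k := by
  obtain ⟨a, ha, h3, h4⟩ := h1
  obtain ⟨b, hb, h5, h6⟩ := h2
  rcases h.tri a b ha hb with h7 | h7 | h7
  · refine ⟨a, ha, (h6 a ha h7) ▸ h3, fun c hc h8 => ?_⟩
    rw [h4 c hc h8, h6 c hc (h.tr _ _ _ h8 h7)]
  · subst h7
    refine ⟨a, ha, h'.tr _ _ _ h3 h5, fun c hc h8 => ?_⟩
    rw [h4 c hc h8, h6 c hc h8]
  · refine ⟨b, hb, (h4 b hb h7).symm ▸ h5, fun c hc h8 => ?_⟩
    rw [h4 c hc (h.tr _ _ _ h8 h7), h6 c hc h8]

theorem lex_tri {M : Type u} [L.Structure M] [IsModel M] [ITy M α] (h : SLO A lt)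
    (h' : SLO (fun _ : β => True) lt')
    (hlt : Int M (fun q : α × α => lt q.1 q.2)) {s : IPow M α} (hs : IFin s)
    (hsA : ∀ a, a ∈ s ↔ A a) {f g : α → β} (hfg : Int M (fun a => f a = g a)) :
    (∀ a, A a → f a = g a) ∨ lexLT A lt lt' f g ∨ lexLT A lt lt' g f := by
  by_cases h1 : ∃ a, A a ∧ f a ≠ g a
  · have hi : Int M (fun a => a ∈ s ∧ f a ≠ g a) := Int.and (by (with_reducible apply Int.mem; with_reducible exact IntF.id; with_reducible exact IntF.const _)) hfg.not
    obtain ⟨a, ha, h2⟩ := IFin.exists_min (s := sep M fun a => a ∈ s ∧ f a ≠ g a) hlt h.irr h.tr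
      (hs.subset fun x hx => ((mem_sep hi).1 hx).1) (by
        obtain ⟨a, ha, h3⟩ := h1
        exact ⟨a, (mem_sep hi).2 ⟨(hsA a).2 ha, h3⟩⟩)
    rw [mem_sep hi] at ha
    have h3 : ∀ b, A b → lt b a → f b = g b := by
      intro b hb h4
      by_contra h5
      exact h2 b ((mem_sep hi).2 ⟨(hsA b).2 hb, h5⟩) h4
    rcases h'.tri (f a) (g a) trivial trivial with h4 | h4 | h4
    · exact Or.inr (Or.inl ⟨a, (hsA a).1 ha.1, h4, h3⟩)
    · exact absurd h4 ha.2
    · exact Or.inr (Or.inr ⟨a, (hsA a).1 ha.1, h4, fun b hb h5 => (h3 b hb h5).symm⟩)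
  · push Not at h1
    exact Or.inl h1

end lex

theorem slo_prop : SLO (fun _ : Prop => True) (fun p q : Prop => ¬ p ∧ q) where
  irr := fun a h => h.1 h.2
  tr := fun a b c h1 h2 => absurd h1.2 h2.1
  tri := fun a b _ _ => by
    by_cases ha : a <;> by_cases hb : b <;> simp [ha, hb]

theorem slo_linear {α : Type u₁} [LinearOrder α] :
    SLO (fun _ : α => True) (fun a b : α => a < b) where
  irr := lt_irrefl
  tr := fun _ _ _ => lt_trans
  tri := fun a b _ _ => lt_trichotomy a b

/-! ### Bourbaki-Witt -/

section bw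

variable {M : Type u} [L.Structure M] [hM : IsModel M]
variable {Y : Type u₁} [ITy M Y]

/-- Intersection of a family. -/
noncomputable def isInter (F : IPow M (IPow M Y)) : IPow M Y := sep M fun x => ∀ s, s ∈ F → x ∈ s

@[simp] theorem mem_isInter {F : IPow M (IPow M Y)} {x : Y} :
    x ∈ isInter F ↔ ∀ s, s ∈ F → x ∈ s := by
  unfold isInter
  rw [mem_sep (by (with_reducible apply Int.all; with_reducible apply Int.imp; with_reducible apply Int.mem; with_reducible exact IntF.snd'; with_reducible exact IntF.const _; with_reducible apply Int.mem; with_reducible exact IntF.fst'; with_reducible exact IntF.snd'))]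

theorem IntF.isInter {γ : Type*} [ITy M γ] {F : γ → IPow M (IPow M Y)} (hF : IntF M F) :
    IntF M (fun c => isInter (F c)) := by
  unfold ZFA.isInter
  (with_reducible apply IntF.sep; with_reducible apply Int.all; with_reducible apply Int.imp; with_reducible apply Int.mem; with_reducible exact IntF.snd'; with_reducible ((refine IntF.comp ?_ ?_); assumption); with_reducible apply IntF.fst; with_reducible exact IntF.fst'; with_reducible apply Int.mem; with_reducible apply IntF.snd; with_reducible exact IntF.fst'; with_reducible exact IntF.snd')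

theorem subset_antisymm' {s t : IPow M Y} (h : s ⊆ t) (h' : t ⊆ s) : s = t :=
  IPow.ext' fun x => ⟨h x, h' x⟩

/-- Chains. -/
def IsChn (F : IPow M (IPow M Y)) : Prop := ∀ s t, s ∈ F → t ∈ F → s ⊆ t ∨ t ⊆ s

/-- Closed families. -/
def BWClosed (F : IPow M Y → IPow M Y) (top : IPow M Y) (W : IPow M (IPow M Y)) : Prop :=
  top ∈ W ∧ (∀ s, s ∈ W → F s ∈ W) ∧ ∀ C : IPow M (IPow M Y), C ⊆ W → (∃ s, s ∈ C) → IsChn C →
    isInter C ∈ W

theorem Int.isChn {γ : Type*} [ITy M γ] {F : γ → IPow M (IPow M Y)} (hF : IntF M F) :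
    Int M (fun c => IsChn (F c)) := by
  unfold IsChn
  (with_reducible apply Int.all; with_reducible apply Int.all; with_reducible apply Int.imp; with_reducible apply Int.mem; with_reducible apply IntF.snd; with_reducible exact IntF.fst'; with_reducible ((refine IntF.comp ?_ ?_); assumption); with_reducible apply IntF.fst; with_reducible exact IntF.fst'; with_reducible apply Int.imp; with_reducible apply Int.mem; with_reducible exact IntF.snd'; with_reducible ((refine IntF.comp ?_ ?_); assumption); with_reducible apply IntF.fst; with_reducible exact IntF.fst'; with_reducible apply Int.or; with_reducible apply Int.subset; with_reducible apply IntF.snd; with_reducible exact IntF.fst'; with_reducible exact IntF.snd'; with_reducible apply Int.subset; with_reducible exact IntF.snd'; with_reducible apply IntF.snd; with_reducible exact IntF.fst')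

theorem bourbaki_witt {F : IPow M Y → IPow M Y} (hF : IntF M F) {Q : IPow M Y → Prop}
    (hQ : Int M Q) {top : IPow M Y} (htop : Q top) (hFQ : ∀ s, Q s → Q (F s) ∧ F s ⊆ s)
    (hchain : ∀ C : IPow M (IPow M Y), (∃ s, s ∈ C) → (∀ s, s ∈ C → Q s) → IsChn C →
      Q (isInter C)) : ∃ s, Q s ∧ F s = s := by
  have hcl : Int M (fun W : IPow M (IPow M Y) => BWClosed F top W) := by
    unfold BWClosed
    (with_reducible apply Int.and; with_reducible apply Int.mem; with_reducible exact IntF.const _; with_reducible exact IntF.id; with_reducible apply Int.and; with_reducible apply Int.all; with_reducible apply Int.imp; with_reducible apply Int.mem; with_reducible exact IntF.snd'; with_reducible exact IntF.fst'; with_reducible apply Int.mem; with_reducible ((refine IntF.comp ?_ ?_); assumption); with_reducible exact IntF.snd'; with_reducible exact IntF.fst'; with_reducible apply Int.all; with_reducible apply Int.imp; with_reducible apply Int.subset; with_reducible exact IntF.snd'; with_reducible exact IntF.fst'; with_reducible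 apply Int.imp; with_reducible apply Int.ex; with_reducible apply Int.mem; with_reducible exact IntF.snd'; with_reducible apply IntF.snd; with_reducible exact IntF.fst'; with_reducible apply Int.imp; with_reducible apply Int.isChn; with_reducible exact IntF.snd'; with_reducible apply Int.mem; with_reducible apply IntF.isInter; with_reducible exact IntF.snd'; with_reducible exact IntF.fst')
  have hW0 : Int M (fun s : IPow M Y => ∀ W, BWClosed F top W → s ∈ W) := by (with_reducible apply Int.all; with_reducible apply Int.imp; with_reducible ((refine Int.comp ?_ ?_); assumption); with_reducible exact IntF.snd'; with_reducible apply Int.mem; with_reducible exact IntF.fst'; with_reducible exact IntF.snd')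
  let W : IPow M (IPow M Y) := sep M fun s => ∀ W, BWClosed F top W → s ∈ W
  have mW : ∀ s, s ∈ W ↔ ∀ W, BWClosed F top W → s ∈ W := fun s => mem_sep hW0
  have ind : ∀ {p : IPow M Y → Prop}, Int M p → p top → (∀ s, s ∈ W → p s → p (F s)) →
      (∀ C : IPow M (IPow M Y), C ⊆ W → (∀ s, s ∈ C → p s) → (∃ s, s ∈ C) → IsChn C →
        p (isInter C)) → ∀ s, s ∈ W → p s := by
    intro p hp h0 h1 h2 s hs
    have hi : Int M (fun s => s ∈ W ∧ p s) := by (with_reducible apply Int.and; with_reducible apply Int.mem; with_reducible exact IntF.id; with_reducible exact IntF.const _; with_reducible assumption)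
    have h := (mW s).1 hs (sep M fun s => s ∈ W ∧ p s) ⟨?_, ?_, ?_⟩
    · exact ((mem_sep hi).1 h).2
    · exact (mem_sep hi).2 ⟨(mW top).2 fun V hV => hV.1, h0⟩
    · intro s hs
      rw [mem_sep hi] at hs ⊢
      exact ⟨(mW _).2 fun V hV => hV.2.1 s ((mW s).1 hs.1 V hV), h1 s hs.1 hs.2⟩
    · intro C hC hne hch
      rw [mem_sep hi]
      have h3 : ∀ s, s ∈ C → s ∈ W ∧ p s := fun s hs => (mem_sep hi).1 (hC s hs)
      exact ⟨(mW _).2 fun V hV => hV.2.2 C (fun s hs => (mW s).1 (h3 s hs).1 V hV) hne hch,
        h2 C (fun s hs => (h3 s hs).1) (fun s hs => (h3 s hs).2) hne hch⟩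
  have W1 : ∀ s, s ∈ W → F s ∈ W := fun s hs =>
    (mW _).2 fun V hV => hV.2.1 s ((mW s).1 hs V hV)
  have W2 : ∀ C : IPow M (IPow M Y), C ⊆ W → (∃ s, s ∈ C) → IsChn C → isInter C ∈ W :=
    fun C hC hne hch => (mW _).2 fun V hV => hV.2.2 C (fun s hs => (mW s).1 (hC s hs) V hV)
      hne hch
  have hQW : ∀ s, s ∈ W → Q s := ind hQ htop (fun s _ h => (hFQ s h).1)
    fun C _ h hne hch => hchain C hne h hch
  -- extreme elements
  have hext : Int M (fun x : IPow M Y => ∀ y, y ∈ W → x ⊆ y → x ≠ y → x ⊆ F y) := by (with_reducible apply Int.all; with_reducible apply Int.imp; with_reducible apply Int.mem; with_reducible exact IntF.snd'; with_reducible exact IntF.const _; with_reducible apply Int.imp; with_reducible apply Int.subset; with_reducible exact IntF.fst'; with_reducible exact IntF.snd'; with_reducible apply Int.imp; with_reducible apply Int.ne; with_reducible exact IntF.fst'; with_reducible exact IntF.snd'; with_reducible apply Int.subset; with_reducible exact IntF.fst'; with_reducible ((refine IntF.comp ?_ ?_);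 assumption); with_reducible exact IntF.snd')
  have cmp : ∀ x, x ∈ W → (∀ y, y ∈ W → x ⊆ y → x ≠ y → x ⊆ F y) →
      ∀ y, y ∈ W → x ⊆ y ∨ y ⊆ F x := by
    intro x hx hxe
    refine ind (by (with_reducible apply Int.or; with_reducible apply Int.subset; with_reducible exact IntF.const _; with_reducible exact IntF.id; with_reducible apply Int.subset; with_reducible exact IntF.id; with_reducible ((refine IntF.comp ?_ ?_); assumption); with_reducible exact IntF.const _)) ?_ ?_ ?_
    · refine Or.inl ?_
      refine ind (p := fun x => x ⊆ top) (by (with_reducible apply Int.subset; with_reducible exact IntF.id; with_reducible exact IntF.const _)) (fun _ => id) ?_ ?_ x hx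
      · intro s hs h z hz
        exact h z ((hFQ s (hQW s hs)).2 z hz)
      · intro C _ h ⟨s, hs⟩ _ z hz
        exact h s hs z (mem_isInter.1 hz s hs)
    · rintro y hy (h | h)
      · by_cases h1 : x = y
        · subst h1
          exact Or.inr fun _ => id
        · exact Or.inl (hxe y hy h h1)
      · exact Or.inr fun z hz => h z ((hFQ y (hQW y hy)).2 z hz)
    · intro C _ h hne _
      by_cases h1 : ∀ y, y ∈ C → x ⊆ y
      · exact Or.inl fun z hz => mem_isInter.2 fun s hs => h1 s hs z hz
      · push Not at h1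
        obtain ⟨y, hy, h2⟩ := h1
        exact Or.inr fun z hz => (h y hy).resolve_left h2 z (mem_isInter.1 hz y hy)
  have all : ∀ x, x ∈ W → ∀ y, y ∈ W → x ⊆ y → x ≠ y → x ⊆ F y := by
    refine ind (by (with_reducible assumption)) ?_ ?_ ?_
    · intro y hy h1 h2
      refine absurd (subset_antisymm' h1 ?_) h2
      refine ind (p := fun x => x ⊆ top) (by (with_reducible apply Int.subset; with_reducible exact IntF.id; with_reducible exact IntF.const _)) (fun _ => id) ?_ ?_ y hy
      · intro s hs h z hz
        exact h z ((hFQ s (hQW s hs)).2 z hz)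
      · intro C _ h ⟨s, hs⟩ _ z hz
        exact h s hs z (mem_isInter.1 hz s hs)
    · intro x hx hxe y hy h1 h2
      rcases cmp x hx hxe y hy with h3 | h3
      · by_cases h4 : x = y
        · subst h4
          exact fun _ => id
        · exact fun z hz => hxe y hy h3 h4 z ((hFQ x (hQW x hx)).2 z hz)
      · exact absurd (subset_antisymm' h1 h3) h2
    · intro C hC h hne hch y hy h1 h2
      have h3 : ∃ e, e ∈ C ∧ ¬ y ⊆ e := by
        by_contra h4
        push Not at h4
        exact h2 (subset_antisymm' h1 fun z hz => mem_isInter.2 fun s hs => h4 s hs z hz)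
      obtain ⟨e, he, h4⟩ := h3
      rcases cmp e (hC e he) (h e he) y hy with h5 | h5
      · have h6 : e ≠ y := fun h6 => h4 (h6 ▸ fun _ => id)
        exact fun z hz => h e he y hy h5 h6 z (mem_isInter.1 hz e he)
      · exact absurd (fun z hz => (hFQ e (hQW e (hC e he))).2 z (h5 z hz)) h4
  have hch : IsChn W := by
    intro x y hx hy
    rcases cmp x hx (all x hx) y hy with h | h
    · exact Or.inl h
    · exact Or.inr fun z hz => (hFQ x (hQW x hx)).2 z (h z hz)
  have hz : isInter W ∈ W := W2 W (fun _ => id) ⟨top, (mW top).2 fun V hV => hV.1⟩ hch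
  refine ⟨isInter W, hQW _ hz, subset_antisymm' (hFQ _ (hQW _ hz)).2 fun x hx => ?_⟩
  exact mem_isInter.1 hx _ (W1 _ hz)

end bw

end Pool.Agent.Helper672.ZFA
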