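import Pool.Agent.Helper672.ZFA.Types

/-!
# Internal power types, function types, subtypes and quotients
-/

namespace Pool.Agent.Helper672.ZFA

open FirstOrder FirstOrder.Language

universe u u₁ u₂ u₃ u₄

variable {M : Type u} [L.Structure M] [hM : IsModel M]
variable {α : Type u₁} {β : Type u₂} {γ : Type u₃} {δ : Type u₄}
  [ITy M α] [ITy M β] [ITy M γ] [ITy M δ]

/-! ### Types given by an injection -/

/-- An injection with internal range gives an internal type. -/
@[reducible] noncomputable def ITy.ofInj {ε : Type*} (e : ε → α) (he : Function.Injective e)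
    (hr : Int M (fun a => ∃ c, e c = a)) : ITy M ε where
  code c := code (e c)
  inj _ _ h := he (ITy.inj h)
  small := by
    obtain ⟨x, hx, h⟩ := hr.small
    refine ⟨x, hx, fun z => (h z).trans ⟨?_, ?_⟩⟩
    · rintro ⟨_, ⟨c, rfl⟩, rfl⟩
      exact ⟨c, rfl⟩
    · rintro ⟨c, rfl⟩
      exact ⟨_, ⟨c, rfl⟩, rfl⟩

theorem IntF.ofInj {ε : Type*} (e : ε → α) (he : Function.Injective e)
    (hr : Int M (fun a => ∃ c, e c = a)) :
    letI := ITy.ofInj (M := M) e he hr
    IntF M e := by
  letI := ITy.ofInj (M := M) e he hr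
  refine IntF.of_D (S := fun v => v 0 = v 1) (D.eqf (DF.var _) (DF.var _)) fun a b => ?_
  exact ⟨fun h => ITy.inj h, fun h => congrArg code h⟩

/-- A function into a type given by an injection is internal if the composition is. -/
theorem IntF.ofInj_iff {ε : Type*} (e : ε → α) (he : Function.Injective e)
    (hr : Int M (fun a => ∃ c, e c = a)) {f : γ → ε} (hf : IntF M (fun c => e (f c))) :
    letI := ITy.ofInj (M := M) e he hr
    IntF M f := by
  letI := ITy.ofInj (M := M) e he hr
  refine IntF.of_rel (r := fun c x => e (f c) = e x) ?_ fun a b => he.eq_iff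
  exact Int.eq (hf.comp IntF.fst') ((IntF.ofInj e he hr).comp IntF.snd')

/-! ### Subtypes -/

noncomputable instance ITy.subtype {p : α → Prop} [hp : Fact (Int M p)] : ITy M {a // p a} :=
  ITy.ofInj Subtype.val Subtype.val_injective (hp.out.congr fun a => by simp)

theorem IntF.val' {p : α → Prop} [hp : Fact (Int M p)] :
    IntF M (fun x : {a // p a} => x.1) :=
  IntF.ofInj Subtype.val Subtype.val_injective (hp.out.congr fun a => by simp)

theorem IntF.val {p : α → Prop} [hp : Fact (Int M p)] {f : γ → {a // p a}} (hf : IntF M f) :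
    IntF M (fun c => (f c).1) := IntF.comp IntF.val' hf

theorem IntF.mk {p : α → Prop} [hp : Fact (Int M p)] {f : γ → {a // p a}}
    (hf : IntF M (fun c => (f c).1)) : IntF M f :=
  IntF.ofInj_iff Subtype.val Subtype.val_injective (hp.out.congr fun a => by simp) hf

/-! ### Power types -/

variable (M α) in
/-- The internal power type. -/
@[ext] structure IPow where
  pred : α → Prop
  int : Int M pred

instance : Membership α (IPow M α) := ⟨fun s a => s.pred a⟩

theorem IPow.ext' {s t : IPow M α} (h : ∀ a, a ∈ s ↔ a ∈ t) : s = t :=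
  IPow.ext (funext fun a => propext (h a))

theorem mem_code_pow {s : IPow M α} {z : M} : Mem z s.int.small.elt ↔ ∃ a, a ∈ s ∧ code a = z :=
  s.int.small.mem

noncomputable instance : ITy M (IPow M α) where
  code s := s.int.small.elt
  inj s t h := by
    refine IPow.ext' fun a => ?_
    have h1 : ∀ s : IPow M α, a ∈ s ↔ Mem (code a) s.int.small.elt := fun s => by
      rw [mem_code_pow]
      exact ⟨fun h => ⟨a, h, rfl⟩, fun ⟨b, hb, h⟩ => ITy.inj h ▸ hb⟩
    rw [h1, h1]
    dsimp only at h
    rw [h]
  small := by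
    obtain ⟨x, hx, h⟩ := small_power (dom M α)
    refine ⟨x, hx, fun z => (h z).trans ⟨?_, ?_⟩⟩
    · rintro ⟨h1, h2⟩
      have hs : Int M (fun a : α => Mem (code a) z) := ⟨z, fun a => Iff.rfl⟩
      refine ⟨⟨_, hs⟩, (Small.eq_elt hs.small h1 fun w => ⟨fun hw => ?_, ?_⟩).symm⟩
      · obtain ⟨a, rfl⟩ := mem_dom.1 (h2 w hw)
        exact ⟨a, hw, rfl⟩
      · rintro ⟨a, ha, rfl⟩
        exact ha
    · rintro ⟨s, rfl⟩
      refine ⟨s.int.small.isSet, fun w hw => ?_⟩
      obtain ⟨a, -, rfl⟩ := mem_code_pow.1 hw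
      exact code_mem_dom a

theorem mem_code_iff {s : IPow M α} {a : α} : Mem (code a) (code (M := M) s) ↔ a ∈ s :=
  mem_code_pow.trans ⟨fun ⟨_, hb, h⟩ => ITy.inj h ▸ hb, fun h => ⟨a, h, rfl⟩⟩

theorem Int.mem' : Int M (fun q : α × IPow M α => q.1 ∈ q.2) :=
  Int.of_D₂ (S := fun v => Mem (v 0) (v 1)) (D.memf (DF.var _) (DF.var _)) fun _ _ => mem_code_iff

theorem Int.mem {f : γ → α} {s : γ → IPow M α} (hf : IntF M f) (hs : IntF M s) :
    Int M (fun c => f c ∈ s c) := Int.comp Int.mem' (hf.pair hs)

theorem IPow.int_mem (s : IPow M α) : Int M (fun a => a ∈ s) := s.int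

open Classical in
variable (M) in
/-- Comprehension. -/
noncomputable def sep (p : α → Prop) : IPow M α :=
  if h : Int M p then ⟨p, h⟩ else ⟨fun _ => False, Int.const False⟩

theorem mem_sep {p : α → Prop} (h : Int M p) {a : α} : a ∈ sep M p ↔ p a := by
  unfold sep
  rw [dif_pos h]
  exact Iff.rfl

theorem Int.slice {p : γ → α → Prop} (h : Int M (fun q : γ × α => p q.1 q.2)) (c : γ) :
    Int M (p c) :=
  Int.comp (p := fun q : γ × α => p q.1 q.2) (f := fun a => (c, a)) h
    ((IntF.const c).pair IntF.id)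

theorem IntF.sep {p : γ → α → Prop} (h : Int M (fun q : γ × α => p q.1 q.2)) :
    IntF M (fun c => sep M (p c)) := by
  refine IntF.of_rel (r := fun c s => ∀ a, (a ∈ s ↔ p c a)) ?_ fun c s => ?_
  · refine Int.all (Int.iff (Int.mem IntF.snd' (IntF.snd IntF.fst')) ?_)
    exact Int.comp h ((IntF.fst IntF.fst').pair IntF.snd')
  · constructor
    · intro h1
      exact IPow.ext' fun a => (mem_sep (h.slice c)).trans (h1 a).symm
    · rintro rfl a
      exact mem_sep (h.slice c)

/-! ### Function types -/

variable (M α β) in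
/-- The internal function type. -/
@[ext] structure IFun where
  toFun : α → β
  int : IntF M toFun

instance : CoeFun (IFun M α β) fun _ => α → β := ⟨IFun.toFun⟩

theorem IFun.ext' {f g : IFun M α β} (h : ∀ a, f a = g a) : f = g := IFun.ext (funext h)

/-- The graph. -/
def IFun.graph (f : IFun M α β) : IPow M (α × β) := ⟨fun q => f q.1 = q.2, f.int⟩

theorem IFun.mem_graph {f : IFun M α β} {a : α} {b : β} : (a, b) ∈ f.graph ↔ f a = b := Iff.rfl

theorem IFun.graph_injective : Function.Injective (IFun.graph : IFun M α β → IPow M (α × β)) := by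
  intro f g h
  refine IFun.ext' fun a => ?_
  have h1 : (a, f a) ∈ g.graph := h ▸ (IFun.mem_graph.2 rfl : (a, f a) ∈ f.graph)
  exact (IFun.mem_graph.1 h1).symm

theorem IFun.int_range : Int M (fun s : IPow M (α × β) => ∃ f : IFun M α β, f.graph = s) := by
  have h : Int M (fun s : IPow M (α × β) => ∀ a, ∃ b, ∀ b', ((a, b') ∈ s ↔ b' = b)) := by
    refine Int.all (Int.ex (Int.all (Int.iff (Int.mem ?_ ?_) (Int.eq ?_ ?_))))
    · exact (IntF.snd (IntF.fst IntF.fst')).pair IntF.snd'
    · exact IntF.fst (IntF.fst IntF.fst')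
    · exact IntF.snd'
    · exact IntF.snd IntF.fst'
  refine h.congr fun s => ⟨fun h1 => ?_, ?_⟩
  · choose f hf using h1
    have hfi : IntF M f := s.int.congr fun q => by
      obtain ⟨a, b⟩ := q
      exact (hf a b).trans eq_comm
    exact ⟨⟨f, hfi⟩, IPow.ext' fun q => (eq_comm.trans (hf q.1 q.2).symm)⟩
  · rintro ⟨f, rfl⟩ a
    exact ⟨f a, fun b' => IFun.mem_graph.trans eq_comm⟩

noncomputable instance : ITy M (IFun M α β) :=
  ITy.ofInj IFun.graph IFun.graph_injective IFun.int_range

theorem IntF.graph' : IntF M (fun f : IFun M α β => f.graph) :=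
  IntF.ofInj IFun.graph IFun.graph_injective IFun.int_range

theorem IntF.app' : IntF M (fun q : IFun M α β × α => q.1 q.2) := by
  refine IntF.of_rel (r := fun q b => (q.2, b) ∈ q.1.graph) ?_ fun q b => Iff.rfl
  exact Int.mem ((IntF.snd IntF.fst').pair IntF.snd') (IntF.graph'.comp (IntF.fst IntF.fst'))

theorem IntF.app {f : γ → IFun M α β} {g : γ → α} (hf : IntF M f) (hg : IntF M g) :
    IntF M (fun c => f c (g c)) := IntF.comp IntF.app' (hf.pair hg)

theorem IFun.int_app (f : IFun M α β) : IntF M (fun a => f a) := f.int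

theorem IntF.slice {f : γ → α → β} (h : IntF M (fun q : γ × α => f q.1 q.2)) (c : γ) :
    IntF M (f c) :=
  IntF.comp (g := fun q : γ × α => f q.1 q.2) (f := fun a => (c, a)) h
    ((IntF.const c).pair IntF.id)

theorem nonempty_of_not_intF {f : α → β} (h : ¬ IntF M f) : Nonempty α := by
  by_contra h1
  exact h ⟨dom M (α × β), fun q => absurd ⟨q.1⟩ h1⟩

open Classical in
variable (M) in
/-- Abstraction. -/
noncomputable def lam (f : α → β) : IFun M α β :=
  if h : IntF M f then ⟨f, h⟩
  else ⟨fun _ => f (Classical.choice (nonempty_of_not_intF h)), IntF.const _⟩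

theorem lam_apply {f : α → β} (h : IntF M f) (a : α) : lam M f a = f a := by
  unfold lam
  rw [dif_pos h]

theorem IntF.lam {f : γ → α → β} (h : IntF M (fun q : γ × α => f q.1 q.2)) :
    IntF M (fun c => lam M (f c)) := by
  refine IntF.of_rel (r := fun c g => ∀ a, g a = f c a) ?_ fun c g => ?_
  · refine Int.all (Int.eq (IntF.app (IntF.snd IntF.fst') IntF.snd') ?_)
    exact IntF.comp h ((IntF.fst IntF.fst').pair IntF.snd')
  · constructor
    · intro h1
      exact IFun.ext' fun a => (lam_apply (h.slice c) a).trans (h1 a).symm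
    · rintro rfl a
      exact lam_apply (h.slice c) a

/-! ### Quotients -/

section Quot

variable (s : Setoid α)

/-- The equivalence class. -/
noncomputable def qcls (c : Quotient s) : IPow M α := sep M (fun a => Quotient.mk s a = c)

variable {s}

theorem int_cls (h : Int M (fun q : α × α => s.r q.1 q.2)) (c : Quotient s) :
    Int M (fun a => Quotient.mk s a = c) := by
  induction c using Quotient.ind with
  | _ b =>
    refine (Int.comp h (IntF.id.pair (IntF.const b))).congr fun a => ?_
    exact Quotient.eq.symm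

theorem qcls_injective (h : Int M (fun q : α × α => s.r q.1 q.2)) :
    Function.Injective (qcls (M := M) s) := by
  intro c d hcd
  induction c using Quotient.ind with
  | _ a =>
    have h1 : a ∈ qcls (M := M) s (Quotient.mk s a) := (mem_sep (int_cls h _)).2 rfl
    rw [hcd] at h1
    exact (mem_sep (int_cls h _)).1 h1

theorem int_qrange (h : Int M (fun q : α × α => s.r q.1 q.2)) :
    Int M (fun t : IPow M α => ∃ c : Quotient s, qcls s c = t) := by
  have h1 : Int M (fun t : IPow M α => ∃ a, ∀ b, (b ∈ t ↔ s.r b a)) := by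
    refine Int.ex (Int.all (Int.iff (Int.mem IntF.snd' (IntF.fst IntF.fst')) ?_))
    exact Int.comp h (IntF.snd'.pair (IntF.snd IntF.fst'))
  refine h1.congr fun t => ⟨?_, ?_⟩
  · rintro ⟨a, ha⟩
    refine ⟨Quotient.mk s a, IPow.ext' fun b => ?_⟩
    rw [ha b, qcls, mem_sep (int_cls h _)]
    exact Quotient.eq
  · rintro ⟨c, rfl⟩
    induction c using Quotient.ind with
    | _ a =>
      refine ⟨a, fun b => ?_⟩
      rw [qcls, mem_sep (int_cls h _)]
      exact Quotient.eq

noncomputable instance ITy.quotient [h : Fact (Int M (fun q : α × α => s.r q.1 q.2))] :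
    ITy M (Quotient s) := ITy.ofInj (qcls s) (qcls_injective h.out) (int_qrange h.out)

theorem IntF.qmk' [h : Fact (Int M (fun q : α × α => s.r q.1 q.2))] :
    IntF M (fun a : α => Quotient.mk s a) := by
  refine IntF.ofInj_iff (qcls s) (qcls_injective h.out) (int_qrange h.out) ?_
  refine IntF.of_rel (r := fun a t => ∀ b, (b ∈ t ↔ s.r b a)) ?_ fun a t => ?_
  · refine Int.all (Int.iff (Int.mem IntF.snd' (IntF.snd IntF.fst')) ?_)
    exact Int.comp h.out (IntF.snd'.pair (IntF.fst IntF.fst'))
  · constructor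
    · intro h1
      refine IPow.ext' fun b => ?_
      rw [qcls, mem_sep (int_cls h.out _), h1 b]
      exact Quotient.eq
    · rintro rfl b
      rw [qcls, mem_sep (int_cls h.out _)]
      exact Quotient.eq

theorem IntF.qmk [h : Fact (Int M (fun q : α × α => s.r q.1 q.2))] {f : γ → α} (hf : IntF M f) :
    IntF M (fun c => Quotient.mk s (f c)) := IntF.comp IntF.qmk' hf

end Quot

end Pool.Agent.Helper672.ZFA
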