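import Mathlib

/-!
# Set theory with atoms: models, bases of vector spaces, and the axiom of choice

The language has a unary predicate for being a set (as opposed to an atom) and membership. The
class `ZermeloAtoms M` says that the structure `M` is a model of Zermelo set theory with atoms,
a subtheory of ZFA (neither Foundation nor Replacement is assumed). `VB M` and `AC M` say that
`M` satisfies the statements VB and AC.
-/

namespace Pool.Agent.Helper672.ZFA

open FirstOrder FirstOrder.Language

universe u

/-- The relation symbols of set theory with atoms: a unary one for being a set (not an atom) and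
a binary one for membership. -/
inductive Sym : ℕ → Type
  | isSet : Sym 1
  | mem : Sym 2

/-- The language of set theory with atoms. -/
def L : FirstOrder.Language.{0, 0} := ⟨fun _ => Empty, Sym⟩

variable {M : Type u} [L.Structure M]

/-- `x` is a set (not an atom). -/
def IsSet (x : M) : Prop := Structure.RelMap (L := L) (Sym.isSet : L.Relations 1) ![x]

/-- `x` is an element of `y`. -/
def Mem (x y : M) : Prop := Structure.RelMap (L := L) (Sym.mem : L.Relations 2) ![x, y]

variable (M) in
/-- Models of Zermelo set theory with atoms: atoms have no elements, Extensionality for sets,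
Pairing, Union, Power Set, Infinity, and the schema of Separation for all classes that are first
order definable with parameters. -/
class ZermeloAtoms : Prop where
  atoms : ∀ x y : M, Mem x y → IsSet y
  ext : ∀ x y : M, IsSet x → IsSet y → (∀ z, Mem z x ↔ Mem z y) → x = y
  pairing : ∀ x y : M, ∃ p, IsSet p ∧ ∀ z, Mem z p ↔ z = x ∨ z = y
  union : ∀ x : M, IsSet x → ∃ a, IsSet a ∧ ∀ z, Mem z a ↔ ∃ y, Mem y x ∧ Mem z y
  power : ∀ x : M, IsSet x → ∃ p, IsSet p ∧ ∀ z, Mem z p ↔ IsSet z ∧ ∀ w, Mem w z → Mem w x
  infinity : ∃ i : M, (∃ e, Mem e i ∧ IsSet e ∧ ∀ z, ¬ Mem z e) ∧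
    ∀ n, Mem n i → ∃ s, Mem s i ∧ IsSet s ∧ ∀ z, Mem z s ↔ Mem z n ∨ z = n
  separation : ∀ S : Set M, (Set.univ : Set M).Definable₁ L S →
    ∀ x : M, IsSet x → ∃ y, IsSet y ∧ ∀ z, Mem z y ↔ Mem z x ∧ z ∈ S

/-- `p` is the unordered pair `{x, y}`. -/
def IsPair (p x y : M) : Prop := IsSet p ∧ ∀ z, Mem z p ↔ z = x ∨ z = y

/-- `p` is the (Kuratowski) ordered pair `(x, y) = {{x}, {x, y}}`. -/
def IsOrdPair (p x y : M) : Prop := ∃ s d, IsPair s x x ∧ IsPair d x y ∧ IsPair p s d

/-- The elements of `x`, as a type. -/
def El (x : M) : Type u := {z : M // Mem z x}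

/-- The binary operation `f` is given by an element `g` of the model: its graph is the set of
the `x, y, z` with `((x, y), z)` in `g`. -/
def IntOp {a b c : M} (f : El a → El b → El c) : Prop :=
  ∃ g : M, ∀ (x : El a) (y : El b) (z : El c),
    f x y = z ↔ ∃ p q, IsOrdPair p x.1 y.1 ∧ IsOrdPair q p z.1 ∧ Mem q g

/-- The subspace `W` is given by the element `w` of the model. -/
def GivenBy {k v : M} [Field (El k)] [AddCommGroup (El v)] [Module (El k) (El v)]
    (W : Submodule (El k) (El v)) (w : M) : Prop := ∀ x : El v, x ∈ W ↔ Mem x.1 w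

/-- The element `b` of the model is a basis of the `k`-vector space `v` in the model: it is a
subset of `v`, it spans `v` (every subspace in the model that contains `b` is all of `v`), and it
is linearly independent (no `x` in `b` is in the span of the other elements of `b`, that is,
there is a subspace in the model that contains the other elements of `b` but not `x`). -/
def IsBasisIn (k v : M) [Field (El k)] [AddCommGroup (El v)] [Module (El k) (El v)] (b : M) :
    Prop :=
  (IsSet b ∧ ∀ z, Mem z b → Mem z v) ∧
  (∀ (W : Submodule (El k) (El v)) (w : M), GivenBy W w → (∀ x : El v, Mem x.1 b → x ∈ W) →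
    W = ⊤) ∧
  (∀ x : El v, Mem x.1 b → ∃ (W : Submodule (El k) (El v)) (w : M), GivenBy W w ∧
    (∀ y : El v, Mem y.1 b → y ≠ x → y ∈ W) ∧ x ∉ W)

variable (M) in
/-- `M` satisfies VB: every vector space in `M` over a field in `M` (sets `k`, `v` of the model
with field and vector space operations that are elements of the model) has a basis in `M`. -/
def VB : Prop :=
  ∀ (k v : M) [Field (El k)] [AddCommGroup (El v)] [Module (El k) (El v)],
    IntOp (fun x y : El k => x + y) → IntOp (fun x y : El k => x * y) →
    IntOp (fun x y : El v => x + y) → IntOp (fun (x : El k) (y : El v) => x • y) →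
    ∃ b : M, IsBasisIn k v b

variable (M) in
/-- `M` satisfies AC: for every set `a` of nonempty sets there is in `M` a function `f` with
domain `a` that maps every `x` in `a` to an element of `x`. -/
def AC : Prop :=
  ∀ a : M, IsSet a → (∀ x, Mem x a → IsSet x ∧ ∃ y, Mem y x) →
    ∃ f : M, IsSet f ∧ (∀ q, Mem q f → ∃ x y, Mem x a ∧ Mem y x ∧ IsOrdPair q x y) ∧
      ∀ x, Mem x a → ∃! y, ∃ q, IsOrdPair q x y ∧ Mem q f

end Pool.Agent.Helper672.ZFA
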