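import Pool.Agent.Helper672.ZFA.Order

/-!
# Systems of finite linear orders
-/

namespace Pool.Agent.Helper672.ZFA

open FirstOrder FirstOrder.Language

universe u u₁ u₂ u₃ u₄

variable {M : Type u} [L.Structure M] [hM : IsModel M]
variable {X : Type u₁} [ITy M X] {γ : Type u₃} [ITy M γ]

/-- The field of a relation. -/
noncomputable def fld (r : IPow M (X × X)) : IPow M X := sep M fun x => (x, x) ∈ r

/-- Restriction of a relation. -/
noncomputable def restr (r : IPow M (X × X)) (P : IPow M X) : IPow M (X × X) :=
  sep M fun q => q ∈ r ∧ q.1 ∈ P ∧ q.2 ∈ P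

@[simp] theorem mem_fld {r : IPow M (X × X)} {x : X} : x ∈ fld r ↔ (x, x) ∈ r := by
  unfold fld
  rw [mem_sep (by (with_reducible apply Int.mem; with_reducible apply IntF.pair; with_reducible exact IntF.id; with_reducible exact IntF.id; with_reducible exact IntF.const _))]

@[simp] theorem mem_restr {r : IPow M (X × X)} {P : IPow M X} {q : X × X} :
    q ∈ restr r P ↔ q ∈ r ∧ q.1 ∈ P ∧ q.2 ∈ P := by
  unfold restr
  rw [mem_sep (by (with_reducible apply Int.and; with_reducible apply Int.mem; with_reducible exact IntF.id; with_reducible exact IntF.const _; with_reducible apply Int.and; with_reducible apply Int.mem; with_reducible exact IntF.fst'; with_reducible exact IntF.const _; with_reducible apply Int.mem; with_reducible exact IntF.snd'; with_reducible exact IntF.const _))]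

theorem IntF.fld {r : γ → IPow M (X × X)} (hr : IntF M r) : IntF M (fun c => fld (r c)) := by
  unfold ZFA.fld
  (with_reducible apply IntF.sep; with_reducible apply Int.mem; with_reducible apply IntF.pair; with_reducible exact IntF.snd'; with_reducible exact IntF.snd'; with_reducible ((refine IntF.comp ?_ ?_); assumption); with_reducible exact IntF.fst')

theorem IntF.restr {r : γ → IPow M (X × X)} {P : γ → IPow M X} (hr : IntF M r)
    (hP : IntF M P) : IntF M (fun c => restr (r c) (P c)) := by
  unfold ZFA.restr
  (with_reducible apply IntF.sep; with_reducible apply Int.and; with_reducible apply Int.mem; with_reducible exact IntF.snd'; with_reducible ((refine IntF.comp ?_ ?_); assumption); with_reducible exact IntF.fst'; with_reducible apply Int.and; with_reducible apply Int.mem; with_reducible apply IntF.fst; with_reducible exact IntF.snd'; with_reducible ((refine IntF.comp ?_ ?_); assumption); with_reducible exact IntF.fst'; with_reducible apply Int.mem; with_reducible apply IntF.snd; with_reducible exact IntF.snd'; with_reducible ((refine IntF.comp ?_ ?_); assumption); with_reducible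 exact IntF.fst')

theorem fld_restr (r : IPow M (X × X)) (P : IPow M X) : fld (restr r P) = fld r ∩ P :=
  IPow.ext' fun x => by simp

theorem restr_restr (r : IPow M (X × X)) (P Q : IPow M X) :
    restr (restr r P) Q = restr r (P ∩ Q) :=
  IPow.ext' fun x => by
    simp only [mem_restr, mem_inter]
    tauto

theorem restr_restr_of_subset {r : IPow M (X × X)} {P Q : IPow M X} (h : Q ⊆ P) :
    restr (restr r P) Q = restr r Q :=
  IPow.ext' fun x => by
    simp only [mem_restr]
    exact ⟨fun ⟨⟨h1, _⟩, h2⟩ => ⟨h1, h2⟩, fun ⟨h1, h2⟩ => ⟨⟨h1, h _ h2.1, h _ h2.2⟩, h2⟩⟩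

/-- Linear orders (reflexive) on their fields, with finite field. -/
def IsLO (r : IPow M (X × X)) : Prop :=
  IFin (fld r) ∧ (∀ x y, (x, y) ∈ r → (x, x) ∈ r ∧ (y, y) ∈ r) ∧
  (∀ x y z, (x, y) ∈ r → (y, z) ∈ r → (x, z) ∈ r) ∧ (∀ x y, (x, y) ∈ r → (y, x) ∈ r → x = y) ∧
  (∀ x y, (x, x) ∈ r → (y, y) ∈ r → (x, y) ∈ r ∨ (y, x) ∈ r)

theorem Int.isLO {r : γ → IPow M (X × X)} (hr : IntF M r) : Int M (fun c => IsLO (r c)) := by
  unfold IsLO
  (with_reducible apply Int.and; with_reducible apply Int.fin; with_reducible apply IntF.fld; with_reducible assumption; with_reducible apply Int.and; with_reducible apply Int.all; with_reducible apply Int.all; with_reducible apply Int.imp; with_reducible apply Int.mem; with_reducible apply IntF.pair; with_reducible apply IntF.snd; with_reducible exact IntF.fst'; with_reducible exact IntF.snd'; with_reducible ((refine IntF.comp ?_ ?_); assumption); with_reducible apply IntF.fst; with_reducible exact IntF.fst'; with_reducible apply Int.and; with_reducible apply Int.mem; with_reducible apply IntF.pair; with_reducible apply IntF.snd; with_reducible exact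 IntF.fst'; with_reducible apply IntF.snd; with_reducible exact IntF.fst'; with_reducible ((refine IntF.comp ?_ ?_); assumption); with_reducible apply IntF.fst; with_reducible exact IntF.fst'; with_reducible apply Int.mem; with_reducible apply IntF.pair; with_reducible exact IntF.snd'; with_reducible exact IntF.snd'; with_reducible ((refine IntF.comp ?_ ?_); assumption); with_reducible apply IntF.fst; with_reducible exact IntF.fst'; with_reducible apply Int.and; with_reducible apply Int.all; with_reducible apply Int.all; with_reducible apply Int.all; with_reducible apply Int.imp; with_reducible apply Int.mem; with_reducible apply IntF.pair; with_reducible apply IntF.snd; with_reducible apply IntF.fst; with_reducible exact IntF.fst'; with_reducible apply IntF.snd; with_reducible exact IntF.fst'; with_reducible ((refine IntF.comp ?_ ?_); assumption); with_reducible apply IntF.fst; with_reducible apply IntF.fst; with_reducible exact IntF.fst'; with_reducible apply Int.imp; with_reducible apply Int.mem; with_reducible apply IntF.pair; with_reducible apply IntF.snd; with_reducible exact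 IntF.fst'; with_reducible exact IntF.snd'; with_reducible ((refine IntF.comp ?_ ?_); assumption); with_reducible apply IntF.fst; with_reducible apply IntF.fst; with_reducible exact IntF.fst'; with_reducible apply Int.mem; with_reducible apply IntF.pair; with_reducible apply IntF.snd; with_reducible apply IntF.fst; with_reducible exact IntF.fst'; with_reducible exact IntF.snd'; with_reducible ((refine IntF.comp ?_ ?_); assumption); with_reducible apply IntF.fst; with_reducible apply IntF.fst; with_reducible exact IntF.fst'; with_reducible apply Int.and; with_reducible apply Int.all; with_reducible apply Int.all; with_reducible apply Int.imp; with_reducible apply Int.mem; with_reducible apply IntF.pair; with_reducible apply IntF.snd; with_reducible exact IntF.fst'; with_reducible exact IntF.snd'; with_reducible ((refine IntF.comp ?_ ?_); assumption); with_reducible apply IntF.fst; with_reducible exact IntF.fst'; with_reducible apply Int.imp; with_reducible apply Int.mem; with_reducible apply IntF.pair; with_reducible exact IntF.snd'; with_reducible apply IntF.snd; with_reducible exact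 IntF.fst'; with_reducible ((refine IntF.comp ?_ ?_); assumption); with_reducible apply IntF.fst; with_reducible exact IntF.fst'; with_reducible apply Int.eq; with_reducible apply IntF.snd; with_reducible exact IntF.fst'; with_reducible exact IntF.snd'; with_reducible apply Int.all; with_reducible apply Int.all; with_reducible apply Int.imp; with_reducible apply Int.mem; with_reducible apply IntF.pair; with_reducible apply IntF.snd; with_reducible exact IntF.fst'; with_reducible apply IntF.snd; with_reducible exact IntF.fst'; with_reducible ((refine IntF.comp ?_ ?_); assumption); with_reducible apply IntF.fst; with_reducible exact IntF.fst'; with_reducible apply Int.imp; with_reducible apply Int.mem; with_reducible apply IntF.pair; with_reducible exact IntF.snd'; with_reducible exact IntF.snd'; with_reducible ((refine IntF.comp ?_ ?_); assumption); with_reducible apply IntF.fst; with_reducible exact IntF.fst'; with_reducible apply Int.or; with_reducible apply Int.mem; with_reducible apply IntF.pair; with_reducible apply IntF.snd; with_reducible exact IntF.fst'; with_reducible exact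 IntF.snd'; with_reducible ((refine IntF.comp ?_ ?_); assumption); with_reducible apply IntF.fst; with_reducible exact IntF.fst'; with_reducible apply Int.mem; with_reducible apply IntF.pair; with_reducible exact IntF.snd'; with_reducible apply IntF.snd; with_reducible exact IntF.fst'; with_reducible ((refine IntF.comp ?_ ?_); assumption); with_reducible apply IntF.fst; with_reducible exact IntF.fst')

theorem IsLO.restr_self {r : IPow M (X × X)} (hr : IsLO r) {P : IPow M X} (h : fld r ⊆ P) :
    restr r P = r :=
  IPow.ext' fun q => by
    obtain ⟨x, y⟩ := q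
    simp only [mem_restr]
    refine ⟨fun h1 => h1.1, fun h1 => ⟨h1, h _ (mem_fld.2 (hr.2.1 _ _ h1).1),
      h _ (mem_fld.2 (hr.2.1 _ _ h1).2)⟩⟩

theorem IsLO.restr {r : IPow M (X × X)} (hr : IsLO r) (P : IPow M X) : IsLO (restr r P) := by
  refine ⟨?_, ?_, ?_, ?_, ?_⟩
  · rw [fld_restr]
    exact hr.1.subset fun x hx => (mem_inter.1 hx).1
  · intro x y h
    simp only [mem_restr] at h ⊢
    exact ⟨⟨(hr.2.1 _ _ h.1).1, h.2.1, h.2.1⟩, ⟨(hr.2.1 _ _ h.1).2, h.2.2, h.2.2⟩⟩
  · intro x y z h h'
    simp only [mem_restr] at h h' ⊢
    exact ⟨hr.2.2.1 _ _ _ h.1 h'.1, h.2.1, h'.2.2⟩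
  · intro x y h h'
    simp only [mem_restr] at h h'
    exact hr.2.2.2.1 _ _ h.1 h'.1
  · intro x y h h'
    simp only [mem_restr] at h h' ⊢
    rcases hr.2.2.2.2 _ _ h.1 h'.1 with h1 | h1
    · exact Or.inl ⟨h1, h.2.1, h'.2.1⟩
    · exact Or.inr ⟨h1, h'.2.1, h.2.1⟩

/-- Systems of finite linear orders. -/
def IsSys (S : IPow M (IPow M (X × X))) : Prop :=
  (∃ r, r ∈ S) ∧ (∀ r, r ∈ S → IsLO r) ∧ (∀ r P, r ∈ S → restr r P ∈ S) ∧
  ∀ r P, r ∈ S → IFin P → fld r ⊆ P → ∃ r', r' ∈ S ∧ fld r' = P ∧ restr r' (fld r) = r

theorem Int.isSys {S : γ → IPow M (IPow M (X × X))} (hS : IntF M S) :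
    Int M (fun c => IsSys (S c)) := by
  unfold IsSys
  (with_reducible apply Int.and; with_reducible apply Int.ex; with_reducible apply Int.mem; with_reducible exact IntF.snd'; with_reducible ((refine IntF.comp ?_ ?_); assumption); with_reducible exact IntF.fst'; with_reducible apply Int.and; with_reducible apply Int.all; with_reducible apply Int.imp; with_reducible apply Int.mem; with_reducible exact IntF.snd'; with_reducible ((refine IntF.comp ?_ ?_); assumption); with_reducible exact IntF.fst'; with_reducible apply Int.isLO; with_reducible exact IntF.snd'; with_reducible apply Int.and; with_reducible apply Int.all; with_reducible apply Int.all; with_reducible apply Int.imp; with_reducible apply Int.mem; with_reducible apply IntF.snd; with_reducible exact IntF.fst'; with_reducible ((refine IntF.comp ?_ ?_); assumption); with_reducible apply IntF.fst; with_reducible exact IntF.fst'; with_reducible apply Int.mem; with_reducible apply IntF.restr; with_reducible apply IntF.snd; with_reducible exact IntF.fst'; with_reducible exact IntF.snd'; with_reducible ((refine IntF.comp ?_ ?_);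 assumption); with_reducible apply IntF.fst; with_reducible exact IntF.fst'; with_reducible apply Int.all; with_reducible apply Int.all; with_reducible apply Int.imp; with_reducible apply Int.mem; with_reducible apply IntF.snd; with_reducible exact IntF.fst'; with_reducible ((refine IntF.comp ?_ ?_); assumption); with_reducible apply IntF.fst; with_reducible exact IntF.fst'; with_reducible apply Int.imp; with_reducible apply Int.fin; with_reducible exact IntF.snd'; with_reducible apply Int.imp; with_reducible apply Int.subset; with_reducible apply IntF.fld; with_reducible apply IntF.snd; with_reducible exact IntF.fst'; with_reducible exact IntF.snd'; with_reducible apply Int.ex; with_reducible apply Int.and; with_reducible apply Int.mem; with_reducible exact IntF.snd'; with_reducible ((refine IntF.comp ?_ ?_); assumption); with_reducible apply IntF.fst; with_reducible apply IntF.fst; with_reducible exact IntF.fst'; with_reducible apply Int.and; with_reducible apply Int.eq; with_reducible apply IntF.fld; with_reducible exact IntF.snd'; with_reducible apply IntF.snd; with_reducible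 exact IntF.fst'; with_reducible apply Int.eq; with_reducible apply IntF.restr; with_reducible exact IntF.snd'; with_reducible apply IntF.fld; with_reducible apply IntF.snd; with_reducible apply IntF.fst; with_reducible exact IntF.fst'; with_reducible apply IntF.snd; with_reducible apply IntF.fst; with_reducible exact IntF.fst')

theorem IsLO.extend {r : IPow M (X × X)} (hr : IsLO r) {P : IPow M X} (hP : IFin P) :
    ∃ r', IsLO r' ∧ fld r' = fld r ∪ P ∧ ZFA.restr r' (fld r) = r := by
  refine IFin.ind (p := fun P => ∃ r', IsLO r' ∧ fld r' = fld r ∪ P ∧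
    ZFA.restr r' (fld r) = r) (by (with_reducible apply Int.ex; with_reducible apply Int.and; with_reducible apply Int.isLO; with_reducible exact IntF.snd'; with_reducible apply Int.and; with_reducible apply Int.eq; with_reducible apply IntF.fld; with_reducible exact IntF.snd'; with_reducible apply IntF.union; with_reducible apply IntF.fld; with_reducible exact IntF.const _; with_reducible exact IntF.fst'; with_reducible apply Int.eq; with_reducible apply IntF.restr; with_reducible exact IntF.snd'; with_reducible apply IntF.fld; with_reducible exact IntF.const _; with_reducible exact IntF.const _)) ?_ ?_ P hP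
  · refine ⟨r, hr, IPow.ext' fun x => by simp, hr.restr_self fun _ => id⟩
  · rintro P a _ _ ⟨r', h1, h2, h3⟩
    by_cases ha : a ∈ fld r'
    · refine ⟨r', h1, ?_, h3⟩
      refine IPow.ext' fun x => ?_
      rw [h2, mem_union, mem_union, mem_insert]
      constructor
      · rintro (h | h)
        · exact Or.inl h
        · exact Or.inr (Or.inr h)
      · rintro (h | rfl | h)
        · exact Or.inl h
        · rwa [h2, mem_union] at ha
        · exact Or.inr h
    · have hi : Int M (fun q : X × X => q ∈ r' ∨ (q.2 = a ∧ (q.1 ∈ fld r' ∨ q.1 = a))) := by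
        (with_reducible apply Int.or; with_reducible apply Int.mem; with_reducible exact IntF.id; with_reducible exact IntF.const _; with_reducible apply Int.and; with_reducible apply Int.eq; with_reducible exact IntF.snd'; with_reducible exact IntF.const _; with_reducible apply Int.or; with_reducible apply Int.mem; with_reducible exact IntF.fst'; with_reducible apply IntF.fld; with_reducible exact IntF.const _; with_reducible apply Int.eq; with_reducible exact IntF.fst'; with_reducible exact IntF.const _)
      have hna : ∀ x, (x, a) ∉ r' := fun x hx => ha (mem_fld.2 (h1.2.1 _ _ hx).2)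
      have hna' : ∀ x, (a, x) ∉ r' := fun x hx => ha (mem_fld.2 (h1.2.1 _ _ hx).1)
      have hm : ∀ x y, (x, y) ∈ sep M (fun q : X × X => q ∈ r' ∨ (q.2 = a ∧
          (q.1 ∈ fld r' ∨ q.1 = a))) ↔ (x, y) ∈ r' ∨ (y = a ∧ ((x, x) ∈ r' ∨ x = a)) := by
        intro x y
        rw [mem_sep hi, mem_fld]
      have hfld : fld (sep M (fun q : X × X => q ∈ r' ∨ (q.2 = a ∧
          (q.1 ∈ fld r' ∨ q.1 = a)))) = insert a (fld r') := by
        refine IPow.ext' fun x => ?_
        rw [mem_fld, hm, mem_insert, mem_fld]
        tauto
      refine ⟨sep M (fun q : X × X => q ∈ r' ∨ (q.2 = a ∧ (q.1 ∈ fld r' ∨ q.1 = a))),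
        ⟨?_, ?_, ?_, ?_, ?_⟩, ?_, ?_⟩
      · rw [hfld]
        exact h1.1.insert a
      · intro x y h
        rw [hm] at h ⊢
        rw [hm]
        rcases h with h | ⟨rfl, h | rfl⟩
        · exact ⟨Or.inl (h1.2.1 _ _ h).1, Or.inl (h1.2.1 _ _ h).2⟩
        · exact ⟨Or.inl h, Or.inr ⟨rfl, Or.inr rfl⟩⟩
        · exact ⟨Or.inr ⟨rfl, Or.inr rfl⟩, Or.inr ⟨rfl, Or.inr rfl⟩⟩
      · intro x y z h h'
        rw [hm] at h h' ⊢
        rcases h with h | ⟨rfl, h⟩
        · rcases h' with h' | ⟨rfl, h'⟩
          · exact Or.inl (h1.2.2.1 _ _ _ h h')
          · exact Or.inr ⟨rfl, Or.inl (h1.2.1 _ _ h).1⟩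
        · rcases h' with h' | ⟨rfl, h'⟩
          · exact absurd h' (hna' _)
          · exact Or.inr ⟨rfl, h⟩
      · intro x y h h'
        rw [hm] at h h'
        rcases h with h | ⟨rfl, h⟩
        · rcases h' with h' | ⟨rfl, h'⟩
          · exact h1.2.2.2.1 _ _ h h'
          · exact absurd h (hna' _)
        · rcases h' with h' | ⟨rfl, h'⟩
          · exact absurd h' (hna' _)
          · rfl
      · intro x y h h'
        rw [hm] at h h' ⊢
        rw [hm]
        rcases h with h | ⟨rfl, _⟩
        · rcases h' with h' | ⟨rfl, _⟩
          · rcases h1.2.2.2.2 _ _ h h' with h2 | h2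
            · exact Or.inl (Or.inl h2)
            · exact Or.inr (Or.inl h2)
          · exact Or.inl (Or.inr ⟨rfl, Or.inl h⟩)
        · rcases h' with h' | ⟨rfl, _⟩
          · exact Or.inr (Or.inr ⟨rfl, Or.inl h'⟩)
          · exact Or.inl (Or.inr ⟨rfl, Or.inr rfl⟩)
      · rw [hfld, h2]
        refine IPow.ext' fun x => ?_
        simp only [mem_insert, mem_union]
        tauto
      · refine IPow.ext' fun q => ?_
        obtain ⟨x, y⟩ := q
        rw [mem_restr, hm]
        conv_rhs => rw [← h3, mem_restr]
        constructor
        · rintro ⟨h | ⟨rfl, h⟩, h5, h6⟩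
          · exact ⟨h, h5, h6⟩
          · dsimp only at h6
            rw [h2, mem_union] at ha
            exact absurd (Or.inl h6) ha
        · rintro ⟨h, h5, h6⟩
          exact ⟨Or.inl h, h5, h6⟩

variable (M X) in
/-- All finite linear orders. -/
noncomputable def allLO : IPow M (IPow M (X × X)) := sep M fun r => IsLO r

theorem mem_allLO {r : IPow M (X × X)} : r ∈ allLO M X ↔ IsLO r := by
  unfold allLO
  rw [mem_sep (by (with_reducible apply Int.isLO; with_reducible exact IntF.id))]

theorem isSys_allLO : IsSys (allLO M X) := by
  refine ⟨⟨∅, mem_allLO.2 ⟨?_, ?_, ?_, ?_, ?_⟩⟩, fun r hr => mem_allLO.1 hr, fun r P hr =>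
    mem_allLO.2 ((mem_allLO.1 hr).restr P), fun r P hr hP hrP => ?_⟩
  · exact IFin.empty.subset fun x hx => by simp at hx
  · intro x y h
    simp at h
  · intro x y z h
    simp at h
  · intro x y h
    simp at h
  · intro x y h
    simp at h
  · obtain ⟨r', h1, h2, h3⟩ := (mem_allLO.1 hr).extend hP
    refine ⟨r', mem_allLO.2 h1, ?_, h3⟩
    rw [h2]
    refine IPow.ext' fun x => ?_
    rw [mem_union]
    exact ⟨fun h => h.elim (hrP x) id, Or.inr⟩

/-- The set of relations on a finite set is finite. -/
theorem fin_rel {P : IPow M X} (hP : IFin P) : IFin (ipow (iprod P P)) := (hP.prod hP).pow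

theorem IsLO.subset {r : IPow M (X × X)} (hr : IsLO r) : r ⊆ iprod (fld r) (fld r) := by
  rintro ⟨x, y⟩ h
  rw [mem_iprod, mem_fld, mem_fld]
  exact hr.2.1 _ _ h

/-- Chains of systems. -/
theorem isSys_inter {C : IPow M (IPow M (IPow M (X × X)))} (hne : ∃ s, s ∈ C)
    (hC : ∀ s, s ∈ C → IsSys s) (hch : IsChn C) : IsSys (isInter C) := by
  obtain ⟨S₀, hS₀⟩ := hne
  refine ⟨⟨∅, mem_isInter.2 fun S hS => ?_⟩, fun r hr => ?_, fun r P hr => ?_,
    fun r P hr hP hrP => ?_⟩
  · obtain ⟨r, hr⟩ := (hC S hS).1
    have h := (hC S hS).2.2.1 r ∅ hr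
    have : restr r ∅ = ∅ := IPow.ext' fun q => by simp
    rwa [this] at h
  · exact (hC S₀ hS₀).2.1 r (mem_isInter.1 hr S₀ hS₀)
  · exact mem_isInter.2 fun S hS => (hC S hS).2.2.1 r P (mem_isInter.1 hr S hS)
  · by_contra hcon
    push Not at hcon
    let A : IPow M (IPow M (X × X)) := sep M fun r' => IsLO r' ∧ fld r' = P ∧
      restr r' (fld r) = r
    have mA : ∀ r', r' ∈ A ↔ IsLO r' ∧ fld r' = P ∧ restr r' (fld r) = r := fun r' =>
      mem_sep (by (with_reducible apply Int.and; with_reducible apply Int.isLO; with_reducible exact IntF.id; with_reducible apply Int.and; with_reducible apply Int.eq; with_reducible apply IntF.fld; with_reducible exact IntF.id; with_reducible exact IntF.const _; with_reducible apply Int.eq; with_reducible apply IntF.restr; with_reducible exact IntF.id; with_reducible apply IntF.fld; with_reducible exact IntF.const _; with_reducible exact IntF.const _))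
    have hA : IFin A := (fin_rel hP).subset fun r' hr' => by
      rw [mA] at hr'
      rw [mem_ipow]
      have := hr'.1.subset
      rwa [hr'.2.1] at this
    have key : ∀ A' : IPow M (IPow M (X × X)), IFin A' → A' ⊆ A →
        ∃ S, S ∈ C ∧ ∀ r', r' ∈ A' → r' ∉ S := by
      refine IFin.ind (by (with_reducible apply Int.imp; with_reducible apply Int.subset; with_reducible exact IntF.id; with_reducible exact IntF.const _; with_reducible apply Int.ex; with_reducible apply Int.and; with_reducible apply Int.mem; with_reducible exact IntF.snd'; with_reducible exact IntF.const _; with_reducible apply Int.all; with_reducible apply Int.imp; with_reducible apply Int.mem; with_reducible exact IntF.snd'; with_reducible apply IntF.fst; with_reducible exact IntF.fst'; with_reducible apply Int.not; with_reducible apply Int.mem; with_reducible exact IntF.snd'; with_reducible apply IntF.snd; with_reducible exact IntF.fst')) ?_ ?_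
      · intro _
        exact ⟨S₀, hS₀, fun r' h => by simp at h⟩
      · intro A' a _ _ ih hsub
        obtain ⟨S, hS, h1⟩ := ih fun x hx => hsub x (mem_insert.2 (Or.inr hx))
        have ha := (mA a).1 (hsub a (mem_insert.2 (Or.inl rfl)))
        have h2 : ∃ T, T ∈ C ∧ a ∉ T := by
          by_contra h3
          push Not at h3
          exact hcon a (mem_isInter.2 h3) ha.2.1 ha.2.2
        obtain ⟨T, hT, h3⟩ := h2
        rcases hch S T hS hT with h4 | h4
        · refine ⟨S, hS, fun r' hr' => ?_⟩
          rcases mem_insert.1 hr' with rfl | hr'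
          · exact fun h5 => h3 (h4 _ h5)
          · exact h1 r' hr'
        · refine ⟨T, hT, fun r' hr' => ?_⟩
          rcases mem_insert.1 hr' with rfl | hr'
          · exact h3
          · exact fun h5 => h1 r' hr' (h4 _ h5)
    obtain ⟨S, hS, h1⟩ := key A hA fun _ => id
    obtain ⟨r', h2, h3, h4⟩ := (hC S hS).2.2.2 r P (mem_isInter.1 hr S hS) hP hrP
    exact h1 r' ((mA r').2 ⟨(hC S hS).2.1 r' h2, h3, h4⟩) h2

/-! ### Stability -/

/-- Stable sets. -/
def Stable (S : IPow M (IPow M (X × X))) (P : IPow M X) : Prop :=
  IFin P ∧ ∀ r r', r ∈ S → r' ∈ S → fld r = fld r' → P ⊆ fld r → restr r P = restr r' P → r = r'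

theorem Int.stable {S : γ → IPow M (IPow M (X × X))} {P : γ → IPow M X} (hS : IntF M S)
    (hP : IntF M P) : Int M (fun c => Stable (S c) (P c)) := by
  unfold Stable
  (with_reducible apply Int.and; with_reducible apply Int.fin; with_reducible assumption; with_reducible apply Int.all; with_reducible apply Int.all; with_reducible apply Int.imp; with_reducible apply Int.mem; with_reducible apply IntF.snd; with_reducible exact IntF.fst'; with_reducible ((refine IntF.comp ?_ ?_); assumption); with_reducible apply IntF.fst; with_reducible exact IntF.fst'; with_reducible apply Int.imp; with_reducible apply Int.mem; with_reducible exact IntF.snd'; with_reducible ((refine IntF.comp ?_ ?_); assumption); with_reducible apply IntF.fst; with_reducible exact IntF.fst'; with_reducible apply Int.imp; with_reducible apply Int.eq; with_reducible apply IntF.fld; with_reducible apply IntF.snd; with_reducible exact IntF.fst'; with_reducible apply IntF.fld; with_reducible exact IntF.snd'; with_reducible apply Int.imp; with_reducible apply Int.subset; with_reducible ((refine IntF.comp ?_ ?_); assumption);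 with_reducible apply IntF.fst; with_reducible exact IntF.fst'; with_reducible apply IntF.fld; with_reducible apply IntF.snd; with_reducible exact IntF.fst'; with_reducible apply Int.imp; with_reducible apply Int.eq; with_reducible apply IntF.restr; with_reducible apply IntF.snd; with_reducible exact IntF.fst'; with_reducible ((refine IntF.comp ?_ ?_); assumption); with_reducible apply IntF.fst; with_reducible exact IntF.fst'; with_reducible apply IntF.restr; with_reducible exact IntF.snd'; with_reducible ((refine IntF.comp ?_ ?_); assumption); with_reducible apply IntF.fst; with_reducible exact IntF.fst'; with_reducible apply Int.eq; with_reducible apply IntF.snd; with_reducible exact IntF.fst'; with_reducible exact IntF.snd')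

variable (M) in
/-- Internal linear orders of `X`. -/
def IsTotalOrder' (r : IPow M (X × X)) : Prop :=
  (∀ x y z, (x, y) ∈ r → (y, z) ∈ r → (x, z) ∈ r) ∧ (∀ x y, (x, y) ∈ r → (y, x) ∈ r → x = y) ∧
  (∀ x y, (x, y) ∈ r ∨ (y, x) ∈ r)

theorem exists_order_of_stable {S : IPow M (IPow M (X × X))} (hS : IsSys S) {P : IPow M X}
    (hP : Stable S P) : ∃ o : IPow M (X × X), IsTotalOrder' M o := by
  obtain ⟨r₀, hr₀⟩ := hS.1
  have h0 : (∅ : IPow M (X × X)) ∈ S := by
    have h := hS.2.2.1 r₀ ∅ hr₀
    have : restr r₀ ∅ = ∅ := IPow.ext' fun q => by simp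
    rwa [this] at h
  obtain ⟨s, hs, hsP, -⟩ := hS.2.2.2 ∅ P h0 hP.1 (fun x hx => by simp at hx)
  -- orders compatible with `s`
  have sub : ∀ r, restr r P = s → P ⊆ fld r := by
    intro r hr x hx
    rw [← hsP, ← hr, fld_restr, mem_inter] at hx
    exact hx.1
  have coh : ∀ r r' : IPow M (X × X), r ∈ S → r' ∈ S → restr r P = s → restr r' P = s → ∀ x y,
      (x, x) ∈ r' → (y, y) ∈ r' → (x, y) ∈ r → (x, y) ∈ r' := by
    intro r r' hr hr' h h' x y hx hy hxy
    have hxy' := (hS.2.1 r hr).2.1 x y hxy
    have h1 : restr r (fld r ∩ fld r') = restr r' (fld r ∩ fld r') := by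
      have hsub : P ⊆ fld r ∩ fld r' := fun z hz => mem_inter.2 ⟨sub r h z hz, sub r' h' z hz⟩
      refine hP.2 _ _ (hS.2.2.1 _ _ hr) (hS.2.2.1 _ _ hr') ?_ ?_ ?_
      · rw [fld_restr, fld_restr]
        refine IPow.ext' fun z => ?_
        simp only [mem_inter]
        tauto
      · rw [fld_restr]
        intro z hz
        exact mem_inter.2 ⟨sub r h z hz, hsub z hz⟩
      · rw [restr_restr_of_subset hsub, restr_restr_of_subset hsub, h, h']
    have h2 : (x, y) ∈ restr r (fld r ∩ fld r') := by
      simp only [mem_restr, mem_inter, mem_fld]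
      exact ⟨hxy, ⟨hxy'.1, hx⟩, ⟨hxy'.2, hy⟩⟩
    rw [h1] at h2
    exact (mem_restr.1 h2).1
  have ex : ∀ Q : IPow M X, IFin Q → ∃ r, r ∈ S ∧ restr r P = s ∧ Q ⊆ fld r := by
    intro Q hQ
    obtain ⟨r, hr, h1, h2⟩ := hS.2.2.2 s (P ∪ Q) hs (hP.1.union hQ) (fun x hx => by
      rw [hsP] at hx
      exact mem_union.2 (Or.inl hx))
    rw [hsP] at h2
    exact ⟨r, hr, h2, fun x hx => by rw [h1]; exact mem_union.2 (Or.inr hx)⟩
  have hi : Int M (fun q : X × X => ∃ r, r ∈ S ∧ restr r P = s ∧ q ∈ r) := by (with_reducible apply Int.ex; with_reducible apply Int.and; with_reducible apply Int.mem; with_reducible exact IntF.snd'; with_reducible exact IntF.const _; with_reducible apply Int.and; with_reducible apply Int.eq; with_reducible apply IntF.restr; with_reducible exact IntF.snd'; with_reducible exact IntF.const _; with_reducible exact IntF.const _; with_reducible apply Int.mem; with_reducible exact IntF.fst'; with_reducible exact IntF.snd')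
  refine ⟨sep M fun q : X × X => ∃ r, r ∈ S ∧ restr r P = s ∧ q ∈ r, ?_, ?_, ?_⟩
  · intro x y z h h'
    rw [mem_sep hi] at h h' ⊢
    obtain ⟨r, hr, h1, h2⟩ := h
    obtain ⟨r', hr', h1', h2'⟩ := h'
    obtain ⟨r'', hr'', h3, h4⟩ := ex {x, y, z} (((IFin.singleton z).insert y).insert x)
    have hx : (x, x) ∈ r'' := mem_fld.1 (h4 x (by simp))
    have hy : (y, y) ∈ r'' := mem_fld.1 (h4 y (by simp))
    have hz : (z, z) ∈ r'' := mem_fld.1 (h4 z (by simp))
    exact ⟨r'', hr'', h3, (hS.2.1 r'' hr'').2.2.1 x y z (coh r r'' hr hr'' h1 h3 x y hx hy h2)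
      (coh r' r'' hr' hr'' h1' h3 y z hy hz h2')⟩
  · intro x y h h'
    rw [mem_sep hi] at h h'
    obtain ⟨r, hr, h1, h2⟩ := h
    obtain ⟨r', hr', h1', h2'⟩ := h'
    have hxy := (hS.2.1 r hr).2.1 _ _ h2
    exact (hS.2.1 r hr).2.2.2.1 x y h2 (coh r' r hr' hr h1' h1 y x hxy.2 hxy.1 h2')
  · intro x y
    rw [mem_sep hi, mem_sep hi]
    obtain ⟨r, hr, h1, h2⟩ := ex {x, y} ((IFin.singleton y).insert x)
    rcases (hS.2.1 r hr).2.2.2.2 x y (mem_fld.1 (h2 x (by simp)))
      (mem_fld.1 (h2 y (by simp))) with h | h
    · exact Or.inl ⟨r, hr, h1, h⟩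
    · exact Or.inr ⟨r, hr, h1, h⟩

end Pool.Agent.Helper672.ZFA
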