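import Pool.Agent.Helper672.ZFA.Basic

/-!
# Internal types, internal predicates and internal functions of a model

An internal type is a Lean type `α` with an injection into the model whose range is given by an
element of the model. A predicate on `α` is internal if it is given by an element of the model.
-/

namespace Pool.Agent.Helper672.ZFA

open FirstOrder FirstOrder.Language

universe u v w

/-- Internal types. -/
class ITy (M : Type u) [L.Structure M] (α : Type v) where
  code : α → M
  inj : Function.Injective code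
  small : Small {z : M | ∃ a, code a = z}

export ITy (code)

variable (M : Type u) [L.Structure M]

/-- The set of all codes. -/
noncomputable def dom (α : Type v) [ITy M α] : M := (ITy.small (M := M) (α := α)).elt

/-- Internal predicates. -/
def Int {α : Type v} [ITy M α] (p : α → Prop) : Prop := ∃ s : M, ∀ a, Mem (code a) s ↔ p a

variable {M}

theorem mem_dom {α : Type v} [ITy M α] {z : M} : Mem z (dom M α) ↔ ∃ a : α, code a = z :=
  (ITy.small (M := M) (α := α)).mem

theorem code_mem_dom {α : Type v} [ITy M α] (a : α) : Mem (code (M := M) a) (dom M α) :=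
  mem_dom.2 ⟨a, rfl⟩

variable [hM : IsModel M]

section

variable {α : Type v} [ITy M α]

theorem Int.of_D {p : α → Prop} {S : (Fin 1 → M) → Prop} (h : D S)
    (hp : ∀ a, S (fun _ => code a) ↔ p a) : Int M p := by
  have hS : D (fun v : Fin 1 → M => v 0 ∈ {z : M | S fun _ => z}) := by
    refine Eq.mp (congrArg D ?_) h
    funext v
    have : v = fun _ => v 0 := by
      funext i
      rw [Subsingleton.elim i 0]
    exact congrArg S this
  refine ⟨(small_sep hS (dom M α)).elt, fun a => (small_sep hS (dom M α)).mem.trans ?_⟩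
  exact ⟨fun h1 => (hp a).1 h1.2, fun h1 => ⟨code_mem_dom a, (hp a).2 h1⟩⟩

/-- The set of codes of elements satisfying an internal predicate. -/
theorem Int.small {p : α → Prop} (h : Int M p) : Small {z : M | ∃ a, p a ∧ code a = z} := by
  obtain ⟨s, hs⟩ := h
  have hS : D (fun v : Fin 1 → M => v 0 ∈ {z : M | Mem z s}) := D.memf (DF.var _) (DF.const _)
  refine ⟨(small_sep hS (dom M α)).elt, (small_sep hS (dom M α)).isSet, fun z =>
    (small_sep hS (dom M α)).mem.trans ?_⟩
  constructor
  · rintro ⟨h1, h2⟩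
    obtain ⟨a, rfl⟩ := mem_dom.1 h1
    exact ⟨a, (hs a).1 h2, rfl⟩
  · rintro ⟨a, ha, rfl⟩
    exact ⟨code_mem_dom a, (hs a).2 ha⟩

omit hM in
theorem Int.congr {p q : α → Prop} (h : Int M p) (hpq : ∀ a, p a ↔ q a) : Int M q := by
  obtain ⟨s, hs⟩ := h
  exact ⟨s, fun a => (hs a).trans (hpq a)⟩

theorem Int.const (P : Prop) : Int M (fun _ : α => P) := by
  by_cases h : P
  · exact ⟨dom M α, fun a => ⟨fun _ => h, fun _ => code_mem_dom a⟩⟩
  · exact ⟨small_empty.elt, fun a => ⟨fun h1 => absurd (small_empty.mem.1 h1) (Set.notMem_empty _),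
      fun h1 => absurd h1 h⟩⟩

theorem Int.not {p : α → Prop} (hp : Int M p) : Int M (fun a => ¬ p a) := by
  obtain ⟨s, hs⟩ := hp
  exact Int.of_D (S := fun v => ¬ Mem (v 0) s) (D.not (D.memf (DF.var _) (DF.const _)))
    fun a => not_congr (hs a)

theorem Int.and {p q : α → Prop} (hp : Int M p) (hq : Int M q) : Int M (fun a => p a ∧ q a) := by
  obtain ⟨s, hs⟩ := hp
  obtain ⟨t, ht⟩ := hq
  exact Int.of_D (S := fun v => Mem (v 0) s ∧ Mem (v 0) t) (D.and (D.memf (DF.var _) (DF.const _))
    (D.memf (DF.var _) (DF.const _))) fun a => and_congr (hs a) (ht a)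

theorem Int.or {p q : α → Prop} (hp : Int M p) (hq : Int M q) : Int M (fun a => p a ∨ q a) :=
  (Int.not (Int.and hp.not hq.not)).congr fun a => by
    rw [not_and_or, not_not, not_not]

theorem Int.imp {p q : α → Prop} (hp : Int M p) (hq : Int M q) : Int M (fun a => p a → q a) :=
  (Int.or hp.not hq).congr fun _ => imp_iff_not_or.symm

theorem Int.iff {p q : α → Prop} (hp : Int M p) (hq : Int M q) : Int M (fun a => (p a ↔ q a)) :=
  (Int.and (hp.imp hq) (hq.imp hp)).congr fun _ => iff_iff_implies_and_implies.symm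

end

section prod

variable {α : Type v} {β : Type w} [ITy M α] [ITy M β]

noncomputable instance : ITy M (α × β) where
  code q := op (code q.1) (code q.2)
  inj q q' h := by
    obtain ⟨h1, h2⟩ := op_inj h
    exact Prod.ext (ITy.inj h1) (ITy.inj h2)
  small := by
    obtain ⟨x, hx, h⟩ := small_prod (dom M α) (dom M β)
    refine ⟨x, hx, fun z => (h z).trans ⟨?_, ?_⟩⟩
    · rintro ⟨y, z, hy, hz, rfl⟩
      obtain ⟨a, rfl⟩ := mem_dom.1 hy
      obtain ⟨b, rfl⟩ := mem_dom.1 hz
      exact ⟨(a, b), rfl⟩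
    · rintro ⟨⟨a, b⟩, rfl⟩
      exact ⟨_, _, code_mem_dom a, code_mem_dom b, rfl⟩

omit hM in
theorem code_prod [IsModel M] (a : α) (b : β) : code (M := M) (a, b) = op (code a) (code b) := rfl

theorem Int.of_D₂ {p : α × β → Prop} {S : (Fin 2 → M) → Prop} (h : D S)
    (hp : ∀ a b, S ![code a, code b] ↔ p (a, b)) : Int M p := by
  have h1 : D (fun v : Fin 1 → M => ∃ x y, v 0 = op x y ∧ S ![x, y]) := by
    refine D.ex (D.ex (D.and (D.eqf (DF.var _) (DF.op (DF.var _) (DF.var _))) ?_))
    have h2 := h.reindex (κ := (Fin 1 ⊕ Unit) ⊕ Unit) ![Sum.inl (Sum.inr ()), Sum.inr ()]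
    refine Eq.mp (congrArg D ?_) h2
    funext w
    refine congrArg S ?_
    funext i
    fin_cases i <;> rfl
  refine Int.of_D h1 ?_
  rintro ⟨a, b⟩
  rw [← hp a b]
  constructor
  · rintro ⟨x, y, h2, h3⟩
    obtain ⟨rfl, rfl⟩ := op_inj h2
    exact h3
  · intro h2
    exact ⟨_, _, rfl, h2⟩

theorem Int.ex {p : α → β → Prop} (h : Int M (fun q : α × β => p q.1 q.2)) :
    Int M (fun a => ∃ b, p a b) := by
  obtain ⟨r, hr⟩ := h
  refine Int.of_D (S := fun v => ∃ y, Mem y (dom M β) ∧ Mem (op (v 0) y) r) ?_ fun a => ?_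
  · exact D.ex (D.and (D.memf (DF.var _) (DF.const _))
      (D.memf (DF.op (DF.var _) (DF.var _)) (DF.const _)))
  · constructor
    · rintro ⟨y, hy, h⟩
      obtain ⟨b, rfl⟩ := mem_dom.1 hy
      exact ⟨b, (hr (a, b)).1 h⟩
    · rintro ⟨b, hb⟩
      exact ⟨code b, code_mem_dom b, (hr (a, b)).2 hb⟩

theorem Int.all {p : α → β → Prop} (h : Int M (fun q : α × β => p q.1 q.2)) :
    Int M (fun a => ∀ b, p a b) :=
  (Int.ex (p := fun a b => ¬ p a b) h.not).not.congr fun a => by
    rw [not_exists]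
    simp only [not_not]

end prod

/-- Internal functions. -/
def IntF (M : Type u) [L.Structure M] [IsModel M] {α : Type v} {β : Type w} [ITy M α] [ITy M β]
    (f : α → β) : Prop := Int M (fun q : α × β => f q.1 = q.2)

section fun₁

universe u₁ u₂ u₃ u₄

variable {α : Type u₁} {β : Type u₂} {γ : Type u₃} {δ : Type u₄}
  [ITy M α] [ITy M β] [ITy M γ] [ITy M δ]

theorem IntF.of_D {f : α → β} {S : (Fin 2 → M) → Prop} (h : D S)
    (hp : ∀ a b, S ![code a, code b] ↔ f a = b) : IntF M f := Int.of_D₂ h hp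

theorem IntF.id : IntF M (fun a : α => a) := by
  refine IntF.of_D (S := fun v => v 0 = v 1) (D.eqf (DF.var _) (DF.var _)) fun a b => ?_
  exact ⟨fun h => ITy.inj h, fun h => congrArg code h⟩

theorem IntF.const (b : β) : IntF M (fun _ : α => b) := by
  refine IntF.of_D (S := fun v => code b = v 1) (D.eqf (DF.const _) (DF.var _)) fun a b => ?_
  exact ⟨fun h => ITy.inj h, fun h => congrArg code h⟩

theorem IntF.comp {g : β → γ} {f : α → β} (hg : IntF M g) (hf : IntF M f) :
    IntF M (fun a => g (f a)) := by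
  obtain ⟨F, hF⟩ := hf
  obtain ⟨G, hG⟩ := hg
  refine IntF.of_D (S := fun v => ∃ y, Mem y (dom M β) ∧ Mem (op (v 0) y) F ∧
    Mem (op y (v 1)) G) ?_ fun a c => ?_
  · exact D.ex (D.and (D.memf (DF.var _) (DF.const _)) (D.and
      (D.memf (DF.op (DF.var _) (DF.var _)) (DF.const _))
      (D.memf (DF.op (DF.var _) (DF.var _)) (DF.const _))))
  · constructor
    · rintro ⟨y, hy, h1, h2⟩
      obtain ⟨b, rfl⟩ := mem_dom.1 hy
      have h3 : f a = b := (hF (a, b)).1 h1
      have h4 : g b = c := (hG (b, c)).1 h2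
      rw [h3, h4]
    · intro h
      exact ⟨code (f a), code_mem_dom _, (hF (a, f a)).2 rfl, (hG (f a, c)).2 h⟩

theorem Int.comp {p : β → Prop} {f : α → β} (hp : Int M p) (hf : IntF M f) :
    Int M (fun a => p (f a)) := by
  obtain ⟨s, hs⟩ := hp
  obtain ⟨F, hF⟩ := hf
  refine Int.of_D (S := fun v => ∃ y, Mem y (dom M β) ∧ Mem (op (v 0) y) F ∧ Mem y s) ?_
    fun a => ?_
  · exact D.ex (D.and (D.memf (DF.var _) (DF.const _)) (D.and
      (D.memf (DF.op (DF.var _) (DF.var _)) (DF.const _)) (D.memf (DF.var _) (DF.const _))))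
  · constructor
    · rintro ⟨y, hy, h1, h2⟩
      obtain ⟨b, rfl⟩ := mem_dom.1 hy
      have h3 : f a = b := (hF (a, b)).1 h1
      rw [h3]
      exact (hs b).1 h2
    · intro h
      exact ⟨code (f a), code_mem_dom _, (hF (a, f a)).2 rfl, (hs (f a)).2 h⟩

theorem IntF.pair {f : γ → α} {g : γ → β} (hf : IntF M f) (hg : IntF M g) :
    IntF M (fun c => (f c, g c)) := by
  obtain ⟨F, hF⟩ := hf
  obtain ⟨G, hG⟩ := hg
  refine IntF.of_D (S := fun v => ∃ x y, v 1 = op x y ∧ Mem (op (v 0) x) F ∧
    Mem (op (v 0) y) G) ?_ ?_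
  · exact D.ex (D.ex (D.and (D.eqf (DF.var _) (DF.op (DF.var _) (DF.var _))) (D.and
      (D.memf (DF.op (DF.var _) (DF.var _)) (DF.const _))
      (D.memf (DF.op (DF.var _) (DF.var _)) (DF.const _)))))
  · rintro c ⟨a, b⟩
    constructor
    · rintro ⟨x, y, h1, h2, h3⟩
      obtain ⟨h4, h5⟩ := op_inj (h1 : op (code a) (code b) = op x y)
      subst h4 h5
      have h6 : f c = a := (hF (c, a)).1 h2
      have h7 : g c = b := (hG (c, b)).1 h3
      rw [h6, h7]
    · intro h
      exact ⟨code a, code b, rfl, (hF (c, a)).2 (congrArg Prod.fst h),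
        (hG (c, b)).2 (congrArg Prod.snd h)⟩

theorem IntF.fst' : IntF M (fun q : α × β => q.1) := by
  refine IntF.of_D (S := fun v => ∃ y, v 0 = op (v 1) y) ?_ ?_
  · exact D.ex (D.eqf (DF.var _) (DF.op (DF.var _) (DF.var _)))
  · rintro ⟨a, b⟩ a'
    constructor
    · rintro ⟨y, h⟩
      exact ITy.inj (op_inj (h : op (code a) (code b) = op (code a') y)).1
    · intro h
      exact ⟨code b, congrArg (fun t => op (code (M := M) t) (code b)) h⟩

theorem IntF.snd' : IntF M (fun q : α × β => q.2) := by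
  refine IntF.of_D (S := fun v => ∃ y, v 0 = op y (v 1)) ?_ ?_
  · exact D.ex (D.eqf (DF.var _) (DF.op (DF.var _) (DF.var _)))
  · rintro ⟨a, b⟩ b'
    constructor
    · rintro ⟨y, h⟩
      exact ITy.inj (op_inj (h : op (code a) (code b) = op y (code b'))).2
    · intro h
      exact ⟨code a, congrArg (fun t => op (code (M := M) a) (code t)) h⟩

theorem IntF.fst {f : γ → α × β} (hf : IntF M f) : IntF M (fun c => (f c).1) :=
  IntF.comp IntF.fst' hf

theorem IntF.snd {f : γ → α × β} (hf : IntF M f) : IntF M (fun c => (f c).2) :=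
  IntF.comp IntF.snd' hf

theorem Int.eq' : Int M (fun q : α × α => q.1 = q.2) := by
  refine Int.of_D₂ (S := fun v => v 0 = v 1) (D.eqf (DF.var _) (DF.var _)) fun a b => ?_
  exact ⟨fun h => ITy.inj h, fun h => congrArg code h⟩

theorem Int.eq {f g : γ → α} (hf : IntF M f) (hg : IntF M g) : Int M (fun c => f c = g c) :=
  Int.comp Int.eq' (hf.pair hg)

theorem Int.comp₂ {p : α → β → Prop} (hp : Int M (fun q : α × β => p q.1 q.2)) {f : γ → α}
    {g : γ → β} (hf : IntF M f) (hg : IntF M g) : Int M (fun c => p (f c) (g c)) :=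
  Int.comp hp (hf.pair hg)

theorem IntF.comp₂ {p : α → β → δ} (hp : IntF M (fun q : α × β => p q.1 q.2)) {f : γ → α}
    {g : γ → β} (hf : IntF M f) (hg : IntF M g) : IntF M (fun c => p (f c) (g c)) :=
  IntF.comp hp (hf.pair hg)

/-- Unique choice. -/
theorem IntF.of_rel {f : α → β} {r : α → β → Prop} (h : Int M (fun q : α × β => r q.1 q.2))
    (hr : ∀ a b, r a b ↔ f a = b) : IntF M f := h.congr fun q => hr q.1 q.2

theorem IntF.ite {p : α → Prop} {_ : DecidablePred p} (hp : Int M p) {f g : α → β}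
    (hf : IntF M f) (hg : IntF M g) :
    IntF M (fun a => if p a then f a else g a) := by
  refine IntF.of_rel (r := fun a b => (p a ∧ f a = b) ∨ (¬ p a ∧ g a = b)) ?_ fun a b => ?_
  · have hp' : Int M (fun q : α × β => p q.1) := Int.comp hp IntF.fst'
    exact Int.or (Int.and hp' hf) (Int.and hp'.not hg)
  · by_cases h : p a
    · simp [h]
    · simp [h]

end fun₁

end Pool.Agent.Helper672.ZFA
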